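import Pool.Agent.TGC.St

/-!
# AGR: the machine disagrees with the set on almost half of the special words
-/

set_option autoImplicit false

namespace Pool.Agent.TGC

open Pool.Agent.Heads Pool.Agent.Det Filter Asymptotics

namespace AGR_aux

attribute [local instance] Classical.propDecidable

/-- The sum of the signs is small. -/
lemma sum_chi {m m' : ℕ} (k b : ℕ) (hb : 1 ≤ b) (hm64 : m = 64 * m') (hm : 1 ≤ m') :
    |∑ W : Wt m k (Fin b), chi m k (Fin b) Finset.univ W| ≤
      (1 / 2) ^ (m' * b) * Fintype.card (Wt m k (Fin b)) := by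
  have h := disc (E := Unit) m m' hm64 hm (fun _ => 0) () (fun _ => 0) 2 (by simp)
    k (Fin b) 1 Empty (fun i => i.elim) (fun i => i.elim) Finset.univ b hb (by simp)
    (fun _ => Nat.zero_le _) (fun i => i.elim) (fun i => i.elim)
    (fun j _ => by rw [Fintype.card_empty]; simp)
  have e1 : ∀ W : Wt m k (Fin b), chi m k (Fin b) Finset.univ W *
      ∏ i : Empty, ind ((fun i : Empty => i.elim : Empty → Finset Unit → Prop) i
        (rch ((fun i : Empty => i.elim : Empty → Wt m k (Fin b) → Unit → Option Unit) i W) ())) =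
      chi m k (Fin b) Finset.univ W := by
    intro W
    rw [Fintype.prod_empty, mul_one]
  rw [Finset.sum_congr rfl fun W _ => e1 W] at h
  exact h

end AGR_aux

open AGR_aux in
/-- AGR -/
theorem t_AGR (h : s_COR) : s_AGR := by
  classical
  intro k Q _ b m m' n t L _ M S hm64 hm hS hL hcnt
  have hb : 1 ≤ b := Nat.one_le_iff_ne_zero.2 (NeZero.ne b)
  have h1 := h k Q b m m' n t L M hm64 hm hL hcnt
  have h2 := sum_chi k b hb hm64 hm
  have e1 : ∀ W : Wt m k (Fin b),
      (if (wd b m k n W ∈ S ↔ M.AccIn (wd b m k n W) t) then (1 : ℝ) else 0) =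
      1 / 2 - chi m k (Fin b) Finset.univ W * ind (M.AccIn (wd b m k n W) t) +
        chi m k (Fin b) Finset.univ W / 2 := by
    intro W
    have hw := hS W
    rcases chi_cases m k (Fin b) Finset.univ W with hs | hs
    · have hw' : wd b m k n W ∉ S := by
        rw [hw, hs]; norm_num
      by_cases hA : M.AccIn (wd b m k n W) t
      · rw [if_neg (by simp [hw', hA]), ind_true hA, hs]; norm_num
      · rw [if_pos (by simp [hw', hA]), ind_false hA, hs]; norm_num
    · have hw' : wd b m k n W ∈ S := by
        rw [hw, hs]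
      by_cases hA : M.AccIn (wd b m k n W) t
      · rw [if_pos (by simp [hw', hA]), ind_true hA, hs]; norm_num
      · rw [if_neg (by simp [hw', hA]), ind_false hA, hs]; norm_num
  have e0 : {W : Wt m k (Fin b) | wd b m k n W ∈ S ↔ M.AccIn (wd b m k n W) t}.ncard =
      (Finset.univ.filter fun W : Wt m k (Fin b) =>
        (wd b m k n W ∈ S ↔ M.AccIn (wd b m k n W) t)).card := by
    rw [← Set.ncard_coe_finset]
    congr 1
    ext W
    simp
  have e2 : ((Finset.univ.filter fun W : Wt m k (Fin b) =>
      (wd b m k n W ∈ S ↔ M.AccIn (wd b m k n W) t)).card : ℝ) =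
      ∑ W : Wt m k (Fin b), (if (wd b m k n W ∈ S ↔ M.AccIn (wd b m k n W) t) then (1 : ℝ)
        else 0) := by
    rw [Finset.sum_boole]
  rw [e0, e2, Finset.sum_congr rfl fun W _ => e1 W, Finset.sum_add_distrib,
    Finset.sum_sub_distrib, Finset.sum_const, Finset.card_univ, nsmul_eq_mul, ← Finset.sum_div]
  have h1' := (abs_le.1 h1).1
  have h2' := (abs_le.1 h2).2
  have h3 : (0 : ℝ) ≤ (1 / 2) ^ (m' * b) * Fintype.card (Wt m k (Fin b)) := by positivity
  nlinarith

end Pool.Agent.TGC
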