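import Pool.Agent.TGC.St

/-!
# Module AVE: the lower bound on average
-/

set_option autoImplicit false

namespace Pool.Agent.TGC

open Pool.Agent.Heads Pool.Agent.Det Filter Asymptotics

namespace AVE_aux

attribute [local instance] Classical.propDecidable

variable {α : Type} {k : ℕ}

/-- The machine given by a deterministic automaton. -/
noncomputable def ofFA (M : FA α k) : Pool.Agent.TGC.LM α k M.Q where
  nx := fun _ q x => if h : (M.δ q x).Nonempty then some h.some else none
  q0 := M.start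
  acc := fun q => q ∈ M.accept

lemma ofFA_nx {M : FA α k} (hM : M.Det) (i : ℕ) (q : M.Q) (x : Fin k → Sym α)
    (r : M.Q × (Fin k → Dir)) : (ofFA M).nx i q x = some r ↔ r ∈ M.δ q x := by
  unfold ofFA
  simp only
  constructor
  · intro h
    split_ifs at h with h1
    rw [← Option.some.inj h]
    exact h1.some_mem
  · intro h
    have h1 : (M.δ q x).Nonempty := ⟨r, h⟩
    rw [dif_pos h1]
    exact congrArg some (hM q x h1.some_mem h)

lemma ofFA_cf {M : FA α k} (hM : M.Det) (w : List α) (i : ℕ) : ∀ c,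
    (ofFA M).cf w i = some c ↔ ReachN (M.Step w) (M.start, fun _ => 0) i c := by
  induction i with
  | zero =>
    intro c
    constructor
    · intro h
      have h1 : ((M.start, fun _ => 0) : M.Q × (Fin k → ℕ)) = c := Option.some.inj h
      rw [← h1]
      exact ReachN.zero
    · intro h
      cases h
      rfl
  | succ i ih =>
    intro c
    constructor
    · intro h
      unfold Pool.Agent.TGC.LM.cf at h
      rw [Option.bind_eq_some_iff] at h
      obtain ⟨c', hc', h⟩ := h
      rw [Option.map_eq_some_iff] at h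
      obtain ⟨qd, hqd, h⟩ := h
      exact ReachN.succ ((ih c').1 hc') ⟨qd, (ofFA_nx hM _ _ _ _).1 hqd, h.symm⟩
    · intro h
      cases h with
      | @succ _ c' _ h1 h2 =>
        obtain ⟨qd, hqd, h3⟩ := h2
        unfold Pool.Agent.TGC.LM.cf
        rw [Option.bind_eq_some_iff]
        refine ⟨c', (ih c').2 h1, ?_⟩
        rw [Option.map_eq_some_iff]
        exact ⟨qd, (ofFA_nx hM _ _ _ _).2 hqd, h3.symm⟩

lemma ofFA_accIn {M : FA α k} (hM : M.Det) (w : List α) (t : ℕ) :
    (ofFA M).AccIn w t ↔ Pool.Agent.TGC.AcceptsIn M w t := by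
  constructor
  · rintro ⟨i, hi, c, h1, h2⟩
    exact ⟨i, hi, c, (ofFA_cf hM w i c).1 h1, h2⟩
  · rintro ⟨i, hi, c, h1, h2⟩
    exact ⟨i, hi, c, (ofFA_cf hM w i c).2 h1, h2⟩

lemma ne_Wt (m : ℕ) : ∀ r : ℕ, ∀ B : Type, Nonempty (Wt m r B) := by
  intro r
  induction r with
  | zero => intro B; exact ⟨(fun _ => false : B → Bool)⟩
  | succ r ih =>
    intro B
    obtain ⟨w⟩ := ih (B × Fin m)
    exact ⟨Wt.mk (fun _ => false) w⟩

end AVE_aux

open AVE_aux

theorem t_AVE (hG : s_GEO) (hA : s_AGR) (hP : s_PAR) (hS : s_SEM) : s_AVE := by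
  classical
  intro c K T hc1 hc2 hK hT1 hT2 k hk
  obtain ⟨δ, hδ, h⟩ := hP c K T hc1 hc2 hK hT1 hT2 k hk
  refine ⟨δ, hδ, ?_⟩
  filter_upwards [h] with n hn
  obtain ⟨b, m', hb, hm, hmn, hbT, hexp, hpar⟩ := hn
  have : NeZero b := ⟨by omega⟩
  have hmn' : b * (5 * (64 * m')) ^ k ≤ n := by
    rw [show 5 * (64 * m') = 320 * m' by ring]; exact hmn
  obtain ⟨-, -, -, -, -, hlen, hinj'⟩ := hG b (64 * m') k (by omega)
  have hinj : Function.Injective (wd b (64 * m') k n) := hinj' n hmn'
  refine ⟨Finset.univ.image (wd b (64 * m') k n), ?_, ?_, ?_⟩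
  · refine Finset.Nonempty.image ?_ _
    have := ne_Wt (64 * m') k (Fin b)
    exact Finset.univ_nonempty
  · intro w hw
    rw [Finset.mem_image] at hw
    obtain ⟨W, -, rfl⟩ := hw
    exact hlen n W
  · intro M s t hM hQ hst
    have := M.finQ
    have hfin : Fintype M.Q := Fintype.ofFinite M.Q
    obtain ⟨L, hL1, hL2⟩ := hpar s t hst
    have hcard : Fintype.card M.Q ≤ 2 ^ s := by
      rw [← Nat.card_eq_fintype_card]; exact hQ
    have hmem : ∀ W : Wt (64 * m') k (Fin b), wd b (64 * m') k n W ∈ LT T ↔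
        chi (64 * m') k (Fin b) Finset.univ W = -1 := by
      intro W
      have h1 := hS b (64 * m') k n (T n) W (by omega) (by omega) hmn' hbT
      rw [← h1]
      unfold LT
      rw [Set.mem_ofPred_eq, hlen n W]
    have hb := hA k M.Q b (64 * m') m' n t L (ofFA M) (LT T) rfl (by omega) hmem
      (hL1 _ hcard) hL2
    have e1 : {w | w ∈ Finset.univ.image (wd b (64 * m') k n) ∧ (w ∈ LT T ↔
          Pool.Agent.TGC.AcceptsIn M w t)} =
        wd b (64 * m') k n '' {W : Wt (64 * m') k (Fin b) | wd b (64 * m') k n W ∈ LT T ↔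
          (ofFA M).AccIn (wd b (64 * m') k n W) t} := by
      ext w
      constructor
      · rintro ⟨hw, h1⟩
        rw [Finset.mem_image] at hw
        obtain ⟨W, -, rfl⟩ := hw
        refine ⟨W, ?_, rfl⟩
        show _ ↔ _
        rw [ofFA_accIn hM]
        exact h1
      · rintro ⟨W, h1, rfl⟩
        refine ⟨Finset.mem_image_of_mem _ (Finset.mem_univ _), ?_⟩
        have h2 : wd b (64 * m') k n W ∈ LT T ↔
          (ofFA M).AccIn (wd b (64 * m') k n W) t := h1
        rwa [ofFA_accIn hM] at h2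
    rw [e1, Set.ncard_image_of_injective _ hinj, Finset.card_image_of_injective _ hinj,
      Finset.card_univ]
    refine hb.trans ?_
    refine mul_le_mul_of_nonneg_right ?_ (Nat.cast_nonneg _)
    linarith

end Pool.Agent.TGC
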