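import Pool.Agent.TGC.St

/-!
# Time gaps for all exponents below 2 (MP_5e85fc_lc): the product with a clock
-/

set_option autoImplicit false

namespace Pool.Agent.TGC.CLK_aux

open Pool.Agent.Heads Pool.Agent.Poly

variable {α : Type} {h k : ℕ}

/-- The pushdown automaton with a clock. -/
def prd (M : PDA α h) (C : FA Unit k) : PDA α (h + k) where
  Q := M.Q × C.Q
  Γ := M.Γ
  finQ := by
    have := M.finQ
    have := C.finQ
    infer_instance
  finΓ := M.finΓ
  start := (M.start, C.start)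
  accept := {q | q.1 ∈ M.accept}
  δ := fun q x g => {t | ∃ u v, u ∈ M.δ q.1 (fun i => x (Fin.castAdd k i)) g ∧
    v ∈ C.δ q.2 (fun i => forget (x (Fin.natAdd h i))) ∧
    t = ((u.1, v.1), Fin.append u.2.1 v.2, u.2.2)}

theorem prd_det {M : PDA α h} {C : FA Unit k} (hM : M.Det) (hC : C.Det) : (prd M C).Det := by
  rintro q x g a ⟨u, v, h1, h2, rfl⟩ b ⟨u', v', h3, h4, rfl⟩
  rw [hM _ _ _ h1 h3, hC _ _ h2 h4]

theorem app_move (N : ℕ) (p1 : Fin h → ℕ) (p2 : Fin k → ℕ) (d1 : Fin h → Dir)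
    (d2 : Fin k → Dir) :
    (fun i => move N (Fin.append p1 p2 i) (Fin.append d1 d2 i)) =
      Fin.append (fun i => move N (p1 i) (d1 i)) (fun i => move N (p2 i) (d2 i)) := by
  funext i
  refine Fin.addCases (fun i => ?_) (fun i => ?_) i
  · simp only [Fin.append_left]
  · simp only [Fin.append_right]

/-- The configuration of the product. -/
def pc {M : PDA α h} {C : FA Unit k} (c1 : Cfg M.Q (Fin h → ℕ) M.Γ)
    (c2 : C.Q × (Fin k → ℕ)) : Cfg (prd M C).Q (Fin (h + k) → ℕ) (prd M C).Γ :=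
  ⟨(c1.state, c2.1), Fin.append c1.pos c2.2, c1.stack⟩

theorem prd_step {M : PDA α h} {C : FA Unit k} (w : List α) (c1 : Cfg M.Q (Fin h → ℕ) M.Γ)
    (c2 : C.Q × (Fin k → ℕ)) (c' : Cfg (prd M C).Q (Fin (h + k) → ℕ) (prd M C).Γ) :
    (prd M C).Step w (pc c1 c2) c' ↔ ∃ c1' c2', M.Step w c1 c1' ∧
      C.Step (List.replicate w.length ()) c2 c2' ∧ c' = pc c1' c2' := by
  have e1 : (fun i => tape w ((pc (C := C) c1 c2).pos (Fin.castAdd k i))) =
      fun i => tape w (c1.pos i) := by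
    funext i
    simp only [pc, Fin.append_left]
  have e2 : (fun i => forget (tape w ((pc (C := C) c1 c2).pos (Fin.natAdd h i)))) =
      fun i => tape (List.replicate w.length ()) (c2.2 i) := by
    funext i
    simp only [pc, Fin.append_right, forget_tape]
  constructor
  · rintro ⟨t, ⟨u, v, h1, h2, rfl⟩, rfl⟩
    have h1' : u ∈ M.δ c1.state (fun i => tape w (c1.pos i)) c1.stack.head? := by
      rw [← e1]; exact h1
    have h2' : v ∈ C.δ c2.1 (fun i => tape (List.replicate w.length ()) (c2.2 i)) := by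
      rw [← e2]; exact h2
    refine ⟨⟨u.1, fun i => move (w.length + 1) (c1.pos i) (u.2.1 i), u.2.2.apply c1.stack⟩,
      (v.1, fun i => move (w.length + 1) (c2.2 i) (v.2 i)), ⟨u, h1', rfl⟩, ⟨v, h2', ?_⟩, ?_⟩
    · rw [List.length_replicate]
    · unfold pc
      simp only
      rw [app_move]
      rfl
  · rintro ⟨c1', c2', ⟨u, h3, rfl⟩, ⟨v, h2, rfl⟩, rfl⟩
    refine ⟨((u.1, v.1), Fin.append u.2.1 v.2, u.2.2), ⟨u, v, ?_, ?_, rfl⟩, ?_⟩
    · rw [← e1] at h3; exact h3
    · rw [← e2] at h2; exact h2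
    · unfold pc
      simp only
      rw [app_move, List.length_replicate]
      rfl

theorem prd_reach {M : PDA α h} {C : FA Unit k} (w : List α) (t : ℕ) :
    ∀ c, (prd M C).Reach w t c ↔ ∃ c1 c2, M.Reach w t c1 ∧
      ReachN (C.Step (List.replicate w.length ())) (C.start, fun _ => 0) t c2 ∧
      c = pc c1 c2 := by
  have e0 : (prd M C).init = pc M.init (C.start, fun _ => 0) := by
    unfold PDA.init pc
    simp only
    congr 1
    funext i
    refine Fin.addCases (fun i => ?_) (fun i => ?_) i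
    · simp only [Fin.append_left]
    · simp only [Fin.append_right]
  induction t with
  | zero =>
    intro c
    constructor
    · intro h1
      cases h1
      exact ⟨M.init, _, PDA.Reach.zero, ReachN.zero, e0⟩
    · rintro ⟨c1, c2, h1, h2, rfl⟩
      cases h1
      cases h2
      rw [← e0]
      exact PDA.Reach.zero
  | succ t ih =>
    intro c
    constructor
    · intro h0
      cases h0 with
      | succ h1 h2 =>
        obtain ⟨c1, c2, h3, h4, rfl⟩ := (ih _).1 h1
        obtain ⟨c1', c2', h5, h6, rfl⟩ := (prd_step w c1 c2 c).1 h2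
        exact ⟨c1', c2', PDA.Reach.succ h3 h5, ReachN.succ h4 h6, rfl⟩
    · rintro ⟨c1', c2', h1, h2, rfl⟩
      cases h1 with
      | succ h3 h5 =>
        cases h2 with
        | succ h4 h6 =>
          exact PDA.Reach.succ ((ih _).2 ⟨_, _, h3, h4, rfl⟩)
            ((prd_step w _ _ _).2 ⟨c1', c2', h5, h6, rfl⟩)

end Pool.Agent.TGC.CLK_aux

namespace Pool.Agent.TGC

open Pool.Agent.Heads Pool.Agent.Poly CLK_aux

theorem t_CLK : s_CLK := by
  intro h k α M C T hM hC
  have htime : ∀ w t c, (prd M C).Reach w t c → t ≤ T w.length := by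
    intro w t c h1
    obtain ⟨c1, c2, -, h2, -⟩ := (prd_reach w t c).1 h1
    exact (hC.2 w.length).2 t c2 h2
  refine ⟨prd M C, prd_det hM hC.1, ?_, htime⟩
  ext w
  constructor
  · rintro ⟨t, c, h1, h2⟩
    have h3 := htime w t c h1
    obtain ⟨c1, c2, h4, h5, rfl⟩ := (prd_reach w t c).1 h1
    exact ⟨t, h3, c1, h4, h2⟩
  · rintro ⟨t, h1, c, h2, h3⟩
    obtain ⟨cT, h4⟩ := (hC.2 w.length).1
    obtain ⟨c2, h5⟩ := reachN_prefix h4 t h1
    exact ⟨t, pc c c2, (prd_reach w t _).2 ⟨c, c2, h2, h5, rfl⟩, h3⟩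

end Pool.Agent.TGC
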