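import Pool.Agent.TGC.St

/-!
# COR: the discrepancy bound for machines on the interleaved words
-/

set_option autoImplicit false

namespace Pool.Agent.TGC

open Pool.Agent.Heads Pool.Agent.Det

namespace COR_aux

attribute [local instance] Classical.propDecidable

/-- The geometry of the interleaved words. -/
structure Geo (b m k : ℕ) [NeZero b] : Prop where
  zo : ∀ p i, gc b m k p = some i → zc b m k p = i
  cells : ∀ i < k, ∀ p p', i + 1 ≤ zc b m k p → (gc b m k p' = some i ∨ zc b m k p' < i) →
    p + gg b m k i ≤ p' ∨ p' + gg b m k i ≤ p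
  pos : ∀ i, 0 < gg b m k i
  anti : ∀ i j, i ≤ j → gg b m k j ≤ gg b m k i
  congr : ∀ (n : ℕ) (W W' : Wt m k (Fin b)) (j p : ℕ), Agree m k (Fin b) j W W' →
    gc b m k p ≠ some j → tape (wd b m k n W) p = tape (wd b m k n W') p
  len : ∀ (n : ℕ) (W : Wt m k (Fin b)), (wd b m k n W).length = n

lemma geo (h : s_GEO) (b m k : ℕ) [NeZero b] (hm : 0 < m) : Geo b m k := by
  obtain ⟨h1, h2, h3, h4, h5, h6, -⟩ := h b m k hm
  exact ⟨h1, h2, h3, h4, h5, h6⟩

variable {k : ℕ} {Q : Type} (M : LM Lm k Q)

lemma cf_le (M : LM Lm k Q) (w : List Lm) (i : ℕ) : ∀ c, M.cf w i = some c →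
    ∀ a, c.2 a ≤ w.length + 1 := by
  induction i with
  | zero =>
    intro c h a
    have : (M.q0, fun _ => 0) = c := Option.some.inj h
    rw [← this]
    exact Nat.zero_le _
  | succ i ih =>
    intro c h a
    unfold LM.cf at h
    rw [Option.bind_eq_some_iff] at h
    obtain ⟨c', hc', h⟩ := h
    rw [Option.map_eq_some_iff] at h
    obtain ⟨qd, -, rfl⟩ := h
    exact move_le (ih c' hc' a) _

/-- The extended configurations: state, positions, mode, time. -/
abbrev Ec (k : ℕ) (Q : Type) (n t : ℕ) : Type :=
  Q × (Fin k → Fin (n + 2)) × Fin (k + 1) × Fin (t + 1)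

/-- The positions of an extended configuration. -/
def ps {n t : ℕ} (e : Ec k Q n t) : Fin k → ℕ := fun a => e.2.1 a

/-- The type of an extended configuration. -/
noncomputable def lm {n t : ℕ} (M : LM Lm k Q) (e : Ec k Q n t) : ℕ :=
  if M.acc e.1 then 0 else (e.2.2.1 : ℕ) + 1

/-- The successor configuration. -/
noncomputable def nxt (b m : ℕ) {n t : ℕ} (e : Ec k Q n t) (ht : (e.2.2.2 : ℕ) < t)
    (qd : Q × (Fin k → Dir)) : Ec k Q n t :=
  (qd.1, fun a => ⟨move (n + 1) (e.2.1 a) (qd.2 a), by
      have := move_le (N := n + 1) (Nat.lt_succ_iff.1 (e.2.1 a).2) (qd.2 a); omega⟩,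
    ⟨upd (zc b m k) (gc b m k) e.2.2.1 (fun a => move (n + 1) (e.2.1 a) (qd.2 a)),
      Nat.lt_succ_of_le (upd_le (Nat.lt_succ_iff.1 e.2.2.1.2) _)⟩,
    ⟨e.2.2.2 + 1, by omega⟩)

/-- One step. -/
noncomputable def sg (b m n t : ℕ) [NeZero b] (M : LM Lm k Q) (W : Wt m k (Fin b)) (e : Ec k Q n t) :
    Option (Ec k Q n t) :=
  if M.acc e.1 then none
  else if ∃ a, gc b m k (ps e a) = some (e.2.2.1 : ℕ) then none
  else if ht : (e.2.2.2 : ℕ) < t then
    (M.nx e.2.2.2 e.1 fun a => tape (wd b m k n W) (ps e a)).map (nxt b m e ht)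
  else none

/-- The initial extended configuration. -/
noncomputable def e0 (b m n t : ℕ) (M : LM Lm k Q) : Ec k Q n t :=
  (M.q0, fun _ => ⟨0, by omega⟩, ⟨Dm (zc b m k) (fun _ : Fin k => 0),
    Nat.lt_succ_of_le (Dm_le _ _)⟩, ⟨0, by omega⟩)

lemma sg_some {b m n t : ℕ} [NeZero b] {W : Wt m k (Fin b)} {e e' : Ec k Q n t} (h : sg b m n t M W e = some e') :
    ¬ M.acc e.1 ∧ (∀ a, gc b m k (ps e a) ≠ some (e.2.2.1 : ℕ)) ∧
    ∃ (ht : (e.2.2.2 : ℕ) < t) (qd : Q × (Fin k → Dir)),
      (M.nx e.2.2.2 e.1 fun a => tape (wd b m k n W) (ps e a)) = some qd ∧ e' = nxt b m e ht qd := by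
  unfold sg at h
  split_ifs at h with h1 h2 h3
  rw [Option.map_eq_some_iff] at h
  obtain ⟨qd, hqd, rfl⟩ := h
  push Not at h2
  exact ⟨h1, h2, h3, qd, hqd, rfl⟩

/-- The extended computation follows the computation. -/
lemma tr_cf {b m n t : ℕ} [NeZero b] (hG : Geo b m k) (W : Wt m k (Fin b)) (i : ℕ) : ∀ e : Ec k Q n t,
    tr (sg b m n t M W) (e0 b m n t M) i = some e →
    M.cf (wd b m k n W) i = some (e.1, ps e) ∧ (e.2.2.2 : ℕ) = i := by
  induction i with
  | zero =>
    intro e h
    have : e0 b m n t M = e := Option.some.inj h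
    rw [← this]
    exact ⟨rfl, rfl⟩
  | succ i ih =>
    intro e h
    have h' : (tr (sg b m n t M W) (e0 b m n t M) i).bind (sg b m n t M W) = some e := h
    rw [Option.bind_eq_some_iff] at h'
    obtain ⟨e1, h1, h2⟩ := h'
    obtain ⟨h3, h4⟩ := ih e1 h1
    obtain ⟨-, -, ht, qd, h5, rfl⟩ := sg_some M h2
    refine ⟨?_, ?_⟩
    · unfold LM.cf
      rw [h3]
      simp only [Option.bind_some]
      rw [h4] at h5
      rw [h5, hG.len]
      rfl
    · show (e1.2.2.2 : ℕ) + 1 = i + 1
      rw [h4]

/-- The computation is followed by the extended computation. -/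
lemma cf_tr {b m n t : ℕ} [NeZero b] (hG : Geo b m k) (W : Wt m k (Fin b)) (i : ℕ) : ∀ c, M.cf (wd b m k n W) i = some c → i ≤ t →
    (∀ l < i, ∀ c', M.cf (wd b m k n W) l = some c' → ¬ M.acc c'.1) →
    ∃ e : Ec k Q n t, tr (sg b m n t M W) (e0 b m n t M) i = some e ∧ (e.1, ps e) = c ∧
      ∀ a, gc b m k (ps e a) ≠ some (e.2.2.1 : ℕ) := by
  induction i with
  | zero =>
    intro c h _ _
    refine ⟨e0 b m n t M, rfl, ?_, ?_⟩
    · exact Option.some.inj h
    · intro a
      exact Dm_free (fun p i => hG.zo p i) (fun _ : Fin k => 0) a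
  | succ i ih =>
    intro c h hi hacc
    unfold LM.cf at h
    rw [Option.bind_eq_some_iff] at h
    obtain ⟨c', hc', h⟩ := h
    rw [Option.map_eq_some_iff] at h
    obtain ⟨qd, hqd, rfl⟩ := h
    obtain ⟨e, h1, h2, h3⟩ := ih c' hc' (by omega) (fun l hl => hacc l (by omega))
    obtain ⟨-, h4⟩ := tr_cf M hG W i e h1
    have h5 : ¬ M.acc e.1 := by
      have := hacc i (by omega) c' hc'
      rw [← h2] at this
      exact this
    have ht : (e.2.2.2 : ℕ) < t := by omega
    have hs : sg b m n t M W e = some (nxt b m e ht qd) := by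
      unfold sg
      rw [if_neg h5, if_neg (by push Not; exact h3), dif_pos ht]
      rw [← h2] at hqd
      rw [h4, hqd]
      rfl
    refine ⟨nxt b m e ht qd, ?_, ?_, ?_⟩
    · rw [tr_succ h1, hs]
    · rw [← h2, hG.len]
      rfl
    · intro a
      exact upd_free (fun p i => hG.zo p i) _ _ a

lemma tr_mode {b m n t : ℕ} [NeZero b] (W : Wt m k (Fin b)) (i : ℕ) (e e' : Ec k Q n t)
    (h : tr (sg b m n t M W) (e0 b m n t M) i = some e)
    (h' : tr (sg b m n t M W) (e0 b m n t M) (i + 1) = some e') :
    (e'.2.2.1 : ℕ) = upd (zc b m k) (gc b m k) e.2.2.1 (ps e') ∧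
    ∀ a, ps e' a ≤ ps e a + 1 ∧ ps e a ≤ ps e' a + 1 := by
  rw [tr_succ h] at h'
  obtain ⟨-, -, ht, qd, -, rfl⟩ := sg_some M h'
  refine ⟨rfl, ?_⟩
  intro a
  exact move_lip (Nat.lt_succ_iff.1 (e.2.1 a).2) _

/-- The predicate on the set of the configurations visited. -/
noncomputable def Psi (b m n t : ℕ) (M : LM Lm k Q) (V : Finset (Ec k Q n t)) : Prop :=
  (∃ e ∈ V, M.acc e.1) ∧ ∀ j < k, (typ (lm M) (1 + j) V).card ≤ 2 ^ j * (t / gg b m k j + 1)

variable [Fintype Q]

lemma psi_iff {b m n t : ℕ} [NeZero b] (hG : Geo b m k) (W : Wt m k (Fin b)) :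
    Psi b m n t M (rch (mac (sg b m n t M W) (lm M) (t + 1)) (e0 b m n t M)) ↔
      M.AccIn (wd b m k n W) t := by
  constructor
  · rintro ⟨⟨e, he, hacc⟩, -⟩
    obtain ⟨⟨i, hi⟩, -⟩ := rch_tr he
    obtain ⟨h1, h2⟩ := tr_cf M hG W i e hi
    have := e.2.2.2.2
    exact ⟨i, by omega, _, h1, hacc⟩
  · intro hA
    have hA' : ∃ i, i ≤ t ∧ ∃ c, M.cf (wd b m k n W) i = some c ∧ M.acc c.1 := hA
    obtain ⟨hT1, c, hT2, hT3⟩ := Nat.find_spec hA'
    have hmin : ∀ l < Nat.find hA', ∀ c', M.cf (wd b m k n W) l = some c' → ¬ M.acc c'.1 := by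
      intro l hl c' hc' hacc
      exact Nat.find_min hA' hl ⟨by omega, c', hc', hacc⟩
    set T := Nat.find hA' with hT
    have hall : ∀ i ≤ T, ∃ e : Ec k Q n t, tr (sg b m n t M W) (e0 b m n t M) i = some e := by
      intro i hi
      have hcf : ∃ c, M.cf (wd b m k n W) i = some c := by
        induction hk : T - i generalizing i with
        | zero => exact ⟨c, by rw [← hT2]; congr 1; omega⟩
        | succ d ih =>
          obtain ⟨c1, hc1⟩ := ih (i + 1) (by omega) (by omega)
          unfold LM.cf at hc1
          rw [Option.bind_eq_some_iff] at hc1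
          obtain ⟨c', hc', -⟩ := hc1
          exact ⟨c', hc'⟩
      obtain ⟨ci, hci⟩ := hcf
      obtain ⟨e, he, -⟩ := cf_tr (t := t) M hG W i ci hci (by omega) (fun l hl => hmin l (by omega))
      exact ⟨e, he⟩
    have : Nonempty (Ec k Q n t) := ⟨e0 b m n t M⟩
    choose! ef hef using hall
    obtain ⟨hz1, -⟩ := tr_cf M hG W T (ef T) (hef T le_rfl)
    have hzacc : M.acc (ef T).1 := by
      rw [hT2] at hz1
      have := Option.some.inj hz1
      rw [this] at hT3
      exact hT3
    have hnacc : ∀ i < T, ¬ M.acc (ef i).1 := by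
      intro i hi
      obtain ⟨h1, -⟩ := tr_cf M hG W i (ef i) (hef i hi.le)
      exact hmin i hi _ h1
    have hlamz : lm M (ef T) = 0 := if_pos hzacc
    refine ⟨⟨ef T, ?_, hzacc⟩, ?_⟩
    · refine rch_of_tr (hef T le_rfl) ?_ (by omega)
      intro i hi u hu
      rw [hef i hi.le] at hu
      rw [← Option.some.inj hu, hlamz]
      unfold lm
      rw [if_neg (hnacc i hi)]
      omega
    · intro j hj
      -- the modes and the positions
      let md : ℕ → ℕ := fun i => (ef i).2.2.1
      let pos : ℕ → Fin k → ℕ := fun i => ps (ef i)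
      have hcount : chg md (fun l => l = j) T ≤ 2 ^ j * (T / gg b m k j + 1) := by
        refine entries (g := gg b m k) (fun p i => hG.zo p i) (hG.cells)
          (fun i _ => hG.pos i) (fun i j h _ => hG.anti i j h) pos md T ?_ ?_ ?_
          j hj
        · intro s hs a
          exact (tr_mode M W s _ _ (hef s hs.le) (hef (s + 1) hs)).2 a
        · intro s hs
          exact (tr_mode M W s _ _ (hef s hs.le) (hef (s + 1) hs)).1
        · have h1 : ef 0 = e0 b m n t M := by
            have := hef 0 (Nat.zero_le _)
            exact (Option.some.inj this).symm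
          show k ≤ ((ef 0).2.2.1 : ℕ)
          rw [h1]
          show k ≤ Dm (zc b m k) (fun _ : Fin k => 0)
          have h2 := Dm_spec (zc b m k) (fun _ : Fin k => 0)
          have h3 : cnt (zc b m k) (Dm (zc b m k) (fun _ : Fin k => 0) + 1)
              (fun _ : Fin k => 0) = 0 := by
            unfold cnt
            rw [Finset.card_eq_zero, Finset.filter_eq_empty_iff]
            intro a _
            have : zc b m k 0 = 0 := by unfold zc; rw [if_neg (by omega)]
            rw [this]
            omega
          omega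
      have hle : (typ (lm M) (1 + j) (rch (mac (sg b m n t M W) (lm M) (t + 1))
          (e0 b m n t M))).card ≤ chg md (fun l => l = j) T := by
        -- every visited configuration of type `1 + j` starts a segment
        have hent : ∀ e ∈ typ (lm M) (1 + j) (rch (mac (sg b m n t M W) (lm M) (t + 1))
            (e0 b m n t M)), ∃ s < T, ef (s + 1) = e ∧ md (s + 1) = j ∧ md (s + 1) ≠ md s := by
          intro e he
          obtain ⟨he1, he2⟩ := mem_typ.1 he
          obtain ⟨-, h1⟩ := rch_tr he1
          have hnotacc : ¬ M.acc e.1 := by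
            intro h
            unfold lm at he2
            rw [if_pos h] at he2
            omega
          have hmode : (e.2.2.1 : ℕ) = j := by
            unfold lm at he2
            rw [if_neg hnotacc] at he2
            omega
          have hbound : ∀ s e', tr (sg b m n t M W) (e0 b m n t M) s = some e' → s ≤ T := by
            intro s e' hs
            by_contra hcon
            have hnone : ∀ d, tr (sg b m n t M W) (e0 b m n t M) (T + 1 + d) = none := by
              intro d
              induction d with
              | zero =>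
                rw [Nat.add_zero, tr_succ (hef T le_rfl)]
                unfold sg
                rw [if_pos hzacc]
              | succ d ih =>
                show (tr (sg b m n t M W) (e0 b m n t M) (T + 1 + d)).bind _ = none
                rw [ih]
                rfl
            have := hnone (s - (T + 1))
            rw [show T + 1 + (s - (T + 1)) = s by omega, hs] at this
            exact absurd this (by simp)
          rcases h1 with h1 | ⟨s, u, h1, h2, h3⟩
          · exfalso
            have h2 : ef 0 = e0 b m n t M := by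
              have := hef 0 (Nat.zero_le _)
              exact (Option.some.inj this).symm
            rw [h1] at hmode
            have hmode' : Dm (zc b m k) (fun _ : Fin k => 0) = j := hmode
            have h2 := Dm_spec (zc b m k) (fun _ : Fin k => 0)
            have h3 : cnt (zc b m k) (Dm (zc b m k) (fun _ : Fin k => 0) + 1)
                (fun _ : Fin k => 0) = 0 := by
              unfold cnt
              rw [Finset.card_eq_zero, Finset.filter_eq_empty_iff]
              intro a _
              have : zc b m k 0 = 0 := by unfold zc; rw [if_neg (by omega)]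
              rw [this]
              omega
            omega
          · have hsT := hbound (s + 1) e h2
            refine ⟨s, by omega, ?_, ?_, ?_⟩
            · have := hef (s + 1) hsT
              rw [h2] at this
              exact (Option.some.inj this).symm
            · have := hef (s + 1) hsT
              rw [h2] at this
              show ((ef (s + 1)).2.2.1 : ℕ) = j
              rw [← Option.some.inj this]
              exact hmode
            · have g1 := hef (s + 1) hsT
              have g2 := hef s (by omega)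
              rw [h2] at g1
              rw [h1] at g2
              have g1' := Option.some.inj g1
              have g2' := Option.some.inj g2
              show ((ef (s + 1)).2.2.1 : ℕ) ≠ ((ef s).2.2.1 : ℕ)
              rw [← g1', ← g2']
              intro hcon
              apply h3
              have hu : ¬ M.acc u.1 := by
                rw [g2']
                exact hnacc s (by omega)
              unfold lm
              rw [if_neg hu, if_neg hnotacc, hcon]
        choose! sf hsf using hent
        refine le_chg md _ T _ sf ?_ ?_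
        · intro e he e' he' heq
          obtain ⟨-, g2, -⟩ := hsf e he
          obtain ⟨-, g2', -⟩ := hsf e' he'
          rw [← g2, ← g2', heq]
        · intro e he
          obtain ⟨g1, -, g3, g4⟩ := hsf e he
          exact ⟨g1, g3, g4⟩
      refine hle.trans (hcount.trans ?_)
      refine Nat.mul_le_mul_left _ ?_
      exact Nat.succ_le_succ (Nat.div_le_div_right hT1)

/-- The discrepancy bound for machines. -/
theorem main (hGEO : s_GEO) : s_COR := by
  classical
  intro k Q _ b m m' n t L _ M hm64 hm hL hcnt
  have hG : Geo b m k := geo hGEO b m k (by omega)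
  have hb : 1 ≤ b := Nat.one_le_iff_ne_zero.2 (NeZero.ne b)
  have hcard : Fintype.card (Ec k Q n t) = ncf (Fintype.card Q) n k t := by
    simp only [Fintype.card_prod, Fintype.card_fin, Fintype.card_fun]
    rfl
  rw [← hcard] at hL
  have h := disc m m' hm64 hm (lm M) (e0 b m n t M)
    (fun i => 2 ^ (i - 1) * (t / gg b m k (i - 1) + 1))
    L hL k (Fin b) 1 Unit (fun _ W => mac (sg b m n t M W) (lm M) (t + 1))
    (fun _ => Psi b m n t M) Finset.univ b hb (by simp) ?_ ?_ ?_ ?_
  · have e1 : ∀ W : Wt m k (Fin b), chi m k (Fin b) Finset.univ W *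
        ∏ _i : Unit, ind (Psi b m n t M (rch (mac (sg b m n t M W) (lm M) (t + 1))
          (e0 b m n t M))) =
        chi m k (Fin b) Finset.univ W * ind (M.AccIn (wd b m k n W) t) := by
      intro W
      rw [Finset.prod_const, Finset.card_univ, Fintype.card_unit, pow_one,
        ind_congr (psi_iff M hG W)]
    rw [Finset.sum_congr rfl fun W _ => e1 W] at h
    exact h
  · intro e
    unfold lm
    split_ifs
    · exact Nat.zero_le _
    · have := e.2.2.1.2
      omega
  · intro _ e W W' hag
    refine mac_congr (t + 1) e ?_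
    intro u hu
    by_cases hacc : M.acc u.1
    · unfold sg
      rw [if_pos hacc, if_pos hacc]
    · have hl : lm M u = (u.2.2.1 : ℕ) + 1 := if_neg hacc
      have hag' := hag (u.2.2.1 : ℕ) (by rw [← hu, hl]; omega)
      unfold sg
      rw [if_neg hacc, if_neg hacc]
      by_cases hg : ∃ a, gc b m k (ps u a) = some (u.2.2.1 : ℕ)
      · rw [if_pos hg, if_pos hg]
      · rw [if_neg hg, if_neg hg]
        push Not at hg
        have : (fun a => tape (wd b m k n W) (ps u a)) =
            fun a => tape (wd b m k n W') (ps u a) := by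
          funext a
          exact hG.congr n W W' _ _ hag' (hg a)
        rw [this]
  · intro _ V hV j hj
    have := hV.2 j hj
    rwa [show (1 + j) - 1 = j by omega]
  · intro j hj
    have := hcnt j hj
    rw [show (1 + j) - 1 = j by omega, Fintype.card_unit, one_mul]
    exact this

end COR_aux

/-- COR: the discrepancy bound for machines on the interleaved words. -/
theorem t_COR (h : s_GEO) : s_COR := COR_aux.main h

end Pool.Agent.TGC
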