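import Pool.Agent.Lib_helper16.Det.Bound
import Pool.Agent.Lib_helper16.Det.Eval
import Pool.Agent.Lib_helper16.Heads.LTS

/-!
# Time gaps for all exponents below 2 (MP_5e85fc_lc): definitions

Interleaved words: block `q` (of length `b`) holds the letter number `q` of each of the `b`
instances; the first letter of a block is marked.
-/

set_option autoImplicit false

namespace Pool.Agent.TGC

open Pool.Agent.Heads Pool.Agent.Det

/-- A letter and a mark (`true` at the beginning of a block). -/
abbrev Lm : Type := Lt × Bool

/-- The letter at the place `p` of the special word. -/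
def wl (b m k : ℕ) [NeZero b] (W : Wt m k (Fin b)) (p : ℕ) : Lm :=
  if p < b * (5 * m) ^ k then (lt m k (Fin b) W (Fin.ofNat b p) (p / b), decide (p % b = 0))
  else (Lt.pad, false)

/-- The special word of length `n`. -/
def wd (b m k n : ℕ) [NeZero b] (W : Wt m k (Fin b)) : List Lm :=
  (List.range n).map (wl b m k W)

/-- The zone of a cell. -/
def zc (b m k p : ℕ) : ℕ := if 1 ≤ p ∧ p ≤ b * (5 * m) ^ k then zo m k ((p - 1) / b) else 0

/-- The group of a cell. -/
def gc (b m k p : ℕ) : Option ℕ :=
  if 1 ≤ p ∧ p ≤ b * (5 * m) ^ k then gp m k ((p - 1) / b) else none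

/-- The gaps. -/
def gg (b m k i : ℕ) : ℕ := b * (m * (5 * m) ^ (k - 1 - i) - 1) + 1

/-! ### Deterministic machines over an alphabet `α` -/

/-- A machine with `k` heads whose steps may depend on the time. -/
structure LM (α : Type) (k : ℕ) (Q : Type) where
  nx : ℕ → Q → (Fin k → Sym α) → Option (Q × (Fin k → Dir))
  q0 : Q
  acc : Q → Prop

/-- The computation. -/
def LM.cf {α : Type} {k : ℕ} {Q : Type} (M : LM α k Q) (w : List α) :
    ℕ → Option (Q × (Fin k → ℕ))
  | 0 => some (M.q0, fun _ => 0)
  | i + 1 => (M.cf w i).bind fun c => (M.nx i c.1 fun a => tape w (c.2 a)).map fun qd =>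
      (qd.1, fun a => move (w.length + 1) (c.2 a) (qd.2 a))

/-- Acceptance in at most `t` steps. -/
def LM.AccIn {α : Type} {k : ℕ} {Q : Type} (M : LM α k Q) (w : List α) (t : ℕ) : Prop :=
  ∃ i ≤ t, ∃ c, M.cf w i = some c ∧ M.acc c.1

/-- The number of the extended configurations. -/
def ncf (q n k t : ℕ) : ℕ := q * ((n + 2) ^ k * ((k + 1) * (t + 1)))

/-- The finite automaton `M` accepts `w` in at most `t` steps. -/
def AcceptsIn {α : Type} {k : ℕ} (M : FA α k) (w : List α) (t : ℕ) : Prop :=
  ∃ i ≤ t, ∃ c, ReachN (M.Step w) (M.start, fun _ => 0) i c ∧ c.1 ∈ M.accept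

/-! ### The pushdown automaton -/

/-- The states: `fwd r g p v` (the main head moves to the right; `r` tells which of the two
counting heads is the source, `g` tells that it is being emptied, `p`, `v` are the control bits),
`bk r v` (the main head returns), `chk r v` (look at the pointer), `acc`. -/
inductive Ph where
  | ini : Ph
  | fwd : Bool → Bool → Bool → Bool → Ph
  | bk : Bool → Bool → Ph
  | chk : Bool → Bool → Ph
  | acc : Ph
  deriving DecidableEq, Fintype

/-- The effect of a letter on the control bits, and the stack operation. -/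
def ap : Lt → Bool → Bool → Option Bool → Bool × Bool × Op Bool
  | Lt.push b, p, v, _ => (p, v, Op.push (p && b))
  | Lt.pop, _, v, some q => (q, v, Op.pop)
  | Lt.pop, _, v, none => (false, v, Op.none)
  | Lt.leaf b, p, v, _ => (p, xor v (p && b), Op.none)
  | Lt.pad, p, v, _ => (p, v, Op.none)

/-- The symbol is the left endmarker. -/
def isLeft {α : Type} : Sym α → Bool
  | Sym.left => true
  | _ => false

/-- The four directions: main head, the two counting heads, the pointer. -/
def dv (a b c d : Dir) : Fin 4 → Dir := ![a, b, c, d]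

/-- The source. -/
def src (r : Bool) : Fin 4 := if r then 2 else 1

/-- One step of the forward phase on a letter. -/
def fw (r g p v : Bool) (a : Lt) (mk : Bool) (lf : Bool) (top : Option Bool) :
    Ph × (Fin 4 → Dir) × Op Bool :=
  if g || mk then
    if lf then
      (Ph.fwd (!r) false (ap a p v top).1 (ap a p v top).2.1, dv Dir.R Dir.S Dir.S Dir.S,
        (ap a p v top).2.2)
    else (Ph.fwd r true p v, if r then dv Dir.R Dir.R Dir.L Dir.S else dv Dir.R Dir.L Dir.R Dir.S,
      Op.none)
  else (Ph.fwd r false p v, dv Dir.R Dir.S Dir.S Dir.S, Op.none)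

/-- The transitions. -/
def dl (q : Ph) (x : Fin 4 → Sym Lm) (top : Option Bool) :
    Option (Ph × (Fin 4 → Dir) × Op Bool) :=
  match q with
  | Ph.ini => some (Ph.fwd false false true false, dv Dir.R Dir.S Dir.S Dir.R, Op.none)
  | Ph.fwd r g p v =>
    match x 0 with
    | Sym.letter (a, mk) => some (fw r g p v a mk (isLeft (x (src r))) top)
    | Sym.right => if g then none else some (Ph.bk r v, dv Dir.L Dir.S Dir.S Dir.S, Op.none)
    | Sym.left => none
  | Ph.bk r v =>
    match x 0 with
    | Sym.left => some (Ph.chk r v, if r then dv Dir.S Dir.S Dir.R Dir.R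
        else dv Dir.S Dir.R Dir.S Dir.R, Op.none)
    | Sym.letter _ => some (Ph.bk r v, dv Dir.L Dir.S Dir.S Dir.S, Op.none)
    | Sym.right => none
  | Ph.chk r v =>
    match x 3 with
    | Sym.letter (_, false) =>
      some (Ph.fwd r false true v, dv Dir.R Dir.S Dir.S Dir.S, Op.none)
    | _ => if v then some (Ph.acc, dv Dir.S Dir.S Dir.S Dir.S, Op.none) else none
  | Ph.acc => none

/-- The automaton. -/
def colPDA : PDA Lm 4 where
  Q := Ph
  Γ := Bool
  finQ := inferInstance
  finΓ := inferInstance
  start := Ph.ini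
  accept := {Ph.acc}
  δ := fun q x g => {t | dl q x g = some t}

/-- The words accepted by the automaton in time `T`. -/
def LT (T : ℕ → ℕ) : Set (List Lm) :=
  {w | ∃ t ≤ T w.length, ∃ c, colPDA.Reach w t c ∧ c.state ∈ colPDA.accept}

end Pool.Agent.TGC
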