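import Pool.Agent.TGC.Defs
import Pool.Agent.Lib_helper16.Poly.ProdP

/-!
# Time gaps for all exponents below 2 (MP_5e85fc_lc): the statements of the modules

Each module proves `theorem t_X : s_X` (the hypotheses allowed are named in the doc string:
`theorem t_X (h : s_Y) : s_X`). Models: the files of `Pool/Agent/Lib_helper16/Det/` (case `b = 1`).
-/

set_option autoImplicit false

namespace Pool.Agent.TGC

open Pool.Agent.Heads Pool.Agent.Det Filter Asymptotics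

/-- GEO (200 lines; models: `Det/Mach.lean` lines 1-105, `Det/Eval.lean` `wd_inj`, `Det/Geo.lean`).
The geometry of the interleaved words.
Proof. (1) `zo_of_gp`. (2) If `p` is inside, put `q = (p - 1) / b`; `i + 1 ≤ zo m k q`. If `p'` is
inside too, with `q' = (p' - 1) / b`, then `gap_inner` gives `q + g ≤ q'` or `q' + g ≤ q`,
`g = m (5m)^(k-1-i) ≥ 1`; from `q + g ≤ q'` one gets
`p' - 1 ≥ b q' ≥ b q + b g ≥ (p - 1) - (b - 1) + b g = (p - 1) + b (g - 1) + 1`. If `p'` is outside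
then `gc = none`, `zc = 0`, so `0 < i`, and `zo_pos` gives `2 m (5m)^(k-1) ≤ q < 4 m (5m)^(k-1)`:
`b * 2 m (5m)^(k-1) ≤ p - 1 < b * 4 m (5m)^(k-1)`, the distance to the outside is
`≥ b m (5m)^(k-1) ≥ gg b m k i`. (3), (4) clear. (5) as `tape_wd_congr`, by `lt_congr` (the mark does
not depend on `W`). (6) clear. (7) as `wd_inj`, by `lt_inj`: for `i : Fin b`, `q < (5m)^k` the place
`b * q + i` has the letter `lt m k (Fin b) W i q`. -/
def s_GEO : Prop := ∀ (b m k : ℕ) [NeZero b], 0 < m →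
  (∀ p i, gc b m k p = some i → zc b m k p = i) ∧
  (∀ i < k, ∀ p p', i + 1 ≤ zc b m k p → (gc b m k p' = some i ∨ zc b m k p' < i) →
    p + gg b m k i ≤ p' ∨ p' + gg b m k i ≤ p) ∧
  (∀ i, 0 < gg b m k i) ∧ (∀ i j, i ≤ j → gg b m k j ≤ gg b m k i) ∧
  (∀ (n : ℕ) (W W' : Wt m k (Fin b)) (j p : ℕ), Agree m k (Fin b) j W W' →
    gc b m k p ≠ some j → tape (wd b m k n W) p = tape (wd b m k n W') p) ∧
  (∀ (n : ℕ) (W : Wt m k (Fin b)), (wd b m k n W).length = n) ∧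
  (∀ n : ℕ, b * (5 * m) ^ k ≤ n → Function.Injective fun W : Wt m k (Fin b) => wd b m k n W)

/-- COR (350 lines; model: `Det/Mach.lean` from line 120 on, `LM`, `Ec`, `lm`, `nxt`, `sg`, `e0`,
`sg_some`, `tr_cf`, `cf_tr`, `tr_mode`, `Psi`, `psi_iff`, `corr`; hypothesis `s_GEO`).
The discrepancy bound for machines on the interleaved words. Proof: as in `Mach.lean` with
`Unit`, `znc`, `grc`, `gap`, `wd` replaced by `Fin b`, `zc b`, `gc b`, `gg b`, `wd b`, and at the end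
`disc` with `B := Fin b`, `A := Finset.univ`, `a := b` (`A.card = b`), `ι := Unit`, `d := 1`. The
number of extended configurations is `ncf (card Q) n k t`. -/
def s_COR : Prop := ∀ (k : ℕ) (Q : Type) [Fintype Q] (b m m' n t L : ℕ) [NeZero b]
  (M : LM Lm k Q), m = 64 * m' → 1 ≤ m' →
  ncf (Fintype.card Q) n k t * (ncf (Fintype.card Q) n k t + 1) + 1 ≤ 2 ^ L →
  (∀ j < k, 2 ^ j * (2 ^ j * (t / gg b m k j + 1) * L) ≤ m' * b * (16 * m') ^ j) →
  |∑ W : Wt m k (Fin b), chi m k (Fin b) Finset.univ W * ind (M.AccIn (wd b m k n W) t)| ≤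
    (1 / 2) ^ (m' * b) * Fintype.card (Wt m k (Fin b))

/-- AGR (100 lines; model: `Det/Count.lean`, `sum_sv` and `agree_bound`; hypothesis `s_COR`).
The machine disagrees with the set `S` on almost half of the special words.
Proof. `|∑ W, chi univ W| ≤ (1/2)^(m' b) card` by `disc` with `ι := Empty`, `E := Unit`. Then
`[W in the set] = 1/2 - chi W * ind (AccIn) + chi W / 2`. -/
def s_AGR : Prop := ∀ (k : ℕ) (Q : Type) [Fintype Q] (b m m' n t L : ℕ) [NeZero b]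
  (M : LM Lm k Q) (S : Set (List Lm)), m = 64 * m' → 1 ≤ m' →
  (∀ W : Wt m k (Fin b), wd b m k n W ∈ S ↔ chi m k (Fin b) Finset.univ W = -1) →
  ncf (Fintype.card Q) n k t * (ncf (Fintype.card Q) n k t + 1) + 1 ≤ 2 ^ L →
  (∀ j < k, 2 ^ j * (2 ^ j * (t / gg b m k j + 1) * L) ≤ m' * b * (16 * m') ^ j) →
  ({W : Wt m k (Fin b) | wd b m k n W ∈ S ↔ M.AccIn (wd b m k n W) t}.ncard : ℝ) ≤
    (1 / 2 + 2 * (1 / 2) ^ (m' * b)) * Fintype.card (Wt m k (Fin b))

/-- PAR (280 lines; model: `Det/Count.lean`, `params_nat` and `params`). The parameters.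
Proof. `b := ⌊(T n - 1) / (2 n + 3)⌋` (natural division); `T n ≥ n^c / K`, `c > 1`, so for large `n`:
`b ≥ 1` and `b ≥ η n^(c-1)`, `η = 1 / (8 K)`; and `b ≤ T n / (2 n) ≤ K n^(c-1)`. Put
`y = (n / b)^(1/k)` (real; `y → ∞` because `n / b ≥ n^(2-c) / K`), `m' := ⌊y / 320⌋`, so for large
`n`: `2 ≤ m'`, `y / 640 ≤ m' ≤ y / 320`, hence `b (320 m')^k ≤ b y^k = n`.
Next `b n y = n^(1+1/k) b^(1-1/k) ≥ η n^(1+1/k+(c-1)(1-1/k)) = η n^(c+(2-c)/k)` (for `η ≤ 1`) and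
`b y = n^(1/k) b^(1-1/k) ≥ η n^(c-1+(2-c)/k)`; so `m' b ≥ b y / 640` gives the clause with `exp` for
`δ` small (as in `params`). For `s, t` as in the hypothesis: `c + (2-c)/k ≤ 2` gives
`t + 1 ≤ (n+2)^2` (as in `params`, `log n ≥ 1`), `a := Nat.log 2 (n+2) + 1`,
`L := 2 (s + (k+3) a) + 2`; first clause as in `params_nat`. Second clause: `g := m (5m)^(k-1-j)`,
`m = 64 m'`, `g ≥ 2`, so `2 * gg ≥ b g`, `gg ≤ n`, `(t / gg + 1) * gg ≤ t + n`; multiply by `2 gg`: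
it suffices that `4^j * 2 (n + t) L ≤ m' b (16 m')^j * b g`, and the right side is
`b^2 m'^(k+1) * 16^j * 64 * 320^(k-1-j) ≥ 64 * 4^j b^2 m'^(k+1)`. Finally
`(n + t) L ≤ (8k + 40) (n + t) (s + log n) ≤ (8k+40) δ n^(c+(2-c)/k) ≤ (8k+40) (δ / η) b n y` and
`b n y = b^2 y^(k+1)` (as `b y^k = n`) `≤ b^2 (640 m')^(k+1)`. -/
def s_PAR : Prop := ∀ (c K : ℝ) (T : ℕ → ℕ), 1 < c → c < 2 → 0 < K →
  (∀ n : ℕ, 0 < n → (T n : ℝ) ≤ K * (n : ℝ) ^ c) → (∀ n : ℕ, (n : ℝ) ^ c ≤ K * T n) →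
  ∀ k : ℕ, 1 ≤ k → ∃ δ : ℝ, 0 < δ ∧ ∀ᶠ n : ℕ in atTop, ∃ b m' : ℕ, 1 ≤ b ∧ 2 ≤ m' ∧
    b * (320 * m') ^ k ≤ n ∧ 1 + b * (2 * n + 3) ≤ T n ∧
    2 * (1 / 2 : ℝ) ^ (m' * b) ≤ Real.exp (-(δ * (n : ℝ) ^ (c - 1 + (2 - c) / k))) ∧
    ∀ s t : ℕ, ((n : ℝ) + t) * (s + Real.log n) ≤ δ * (n : ℝ) ^ (c + (2 - c) / k) →
      ∃ L : ℕ, (∀ q, q ≤ 2 ^ s → ncf q n k t * (ncf q n k t + 1) + 1 ≤ 2 ^ L) ∧
        ∀ j < k, 2 ^ j * (2 ^ j * (t / gg b (64 * m') k j + 1) * L) ≤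
          m' * b * (16 * m') ^ j

/-! ### The pushdown automaton on the special words -/

/-- One step (the automaton is deterministic). -/
def stp (w : List Lm) (c : Cfg Ph (Fin 4 → ℕ) Bool) : Option (Cfg Ph (Fin 4 → ℕ) Bool) :=
  (dl c.state (fun i => tape w (c.pos i)) c.stack.head?).map fun u =>
    ⟨u.1, fun i => move (w.length + 1) (c.pos i) (u.2.1 i), u.2.2.apply c.stack⟩

/-- `t` steps. -/
def Rn (w : List Lm) : ℕ → Cfg Ph (Fin 4 → ℕ) Bool → Cfg Ph (Fin 4 → ℕ) Bool → Prop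
  | 0, c, c' => c = c'
  | t + 1, c, c' => ∃ c1, stp w c = some c1 ∧ Rn w t c1 c'

/-- The positions: main head at `x`, the source at `i`, the other counting head at `j`, the pointer
at `y`. -/
def pq (r : Bool) (x i j y : ℕ) : Fin 4 → ℕ := if r then ![x, j, i, y] else ![x, i, j, y]

/-- FWD (250 lines). One forward phase: in `n` steps the main head goes from cell `1` to cell
`n + 1` and the letter `i` of every block is executed.
Proof. Let `l = (5m)^k`, `q < l` a block; it occupies the cells `b q + 1, …, b q + b`. Claim: from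
`⟨fwd r false p v, pq r (b q + 1) i 0 y, σ⟩` one reaches in `b` steps
`⟨fwd (!r) false p' v', pq (!r) (b (q+1) + 1) i 0 y, σ'⟩` where
`(p', v', σ') = exec (lt m k (Fin b) W i q) (p, v, σ)`: (a) for `o < i` the step on the cell
`b q + 1 + o` (its letter is marked iff `o = 0`, `g = true` iff `o > 0`; the source is at `i - o > 0`,
so it does not see the left endmarker) moves main R, source L, other R; (b) at `o = i` the source is
at `0`: the letter is `lt … i q` (the place `b q + i`), it is executed (`ap` agrees with `exec`), and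
`r` flips: the new source is the head at `i`; (c) for `i < o < b` the letters are not marked: main R.
The cells `b l + 1, …, n` are not marked: main R only. Compose over `q < l` (`rn` of `Det/Eval.lean`)
and use `rn_part m k (Fin b) W i true v []`. -/
def s_FWD : Prop := ∀ (b m k n : ℕ) [NeZero b] (W : Wt m k (Fin b)) (i : Fin b) (r v : Bool)
  (y : ℕ), 0 < m → b * (5 * m) ^ k ≤ n →
  ∃ (r' p' v' : Bool), Rn (wd b m k n W) n
      ⟨Ph.fwd r false true v, pq r 1 i 0 y, []⟩ ⟨Ph.fwd r' false p' v', pq r' (n + 1) i 0 y, []⟩ ∧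
    sb v' = sb v * sv m k (Fin b) W i

/-- SEM (250 lines; hypothesis `s_FWD`). The automaton on the special words.
Proof. `colPDA.Step w c c' ↔ stp w c = some c'`, `colPDA.Reach w t c ↔ Rn w t init c` (snoc form of
`Rn`, `rn_snoc` in `Poly/ProdP.lean`); the computation is unique. After 1 step:
`⟨fwd false false true false, pq false 1 0 0 1, []⟩`. Column `i < b`: from
`⟨fwd r false true v, pq r 1 i 0 (i+1), []⟩`: `n` steps (FWD); at the right endmarker main L, state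
`bk` (1 step); main goes from cell `n` to cell `0` in `n` steps; there the source and the pointer
move R (`i + 1 ≤ n + 1`), state `chk` (1 step); so after `2 n + 2` steps
`⟨chk r' v', pq r' 0 (i+1) 0 (i+2), []⟩`, `sb v' = sb v * sv … i`. If `i + 1 < b` the pointer is on the
place `i + 1 < b ≤ n`, which is not marked: one more step leads to the column `i + 1`
(`2 n + 3` steps in all). If `i + 1 = b` then the place `b` is marked, because
`(5m)^k ≥ 2` (`k ≥ 1`) and `b < b (5m)^k ≤ n`: if `v' = true` one more step leads to `acc`, else the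
automaton is stuck. So it reaches `acc` iff `∏ i, sv … i = -1`, after `1 + b (2 n + 3) ≤ T` steps. -/
def s_SEM : Prop := ∀ (b m k n T : ℕ) [NeZero b] (W : Wt m k (Fin b)), 0 < m → 0 < k →
  b * (5 * m) ^ k ≤ n → 1 + b * (2 * n + 3) ≤ T →
  ((∃ t ≤ T, ∃ c, colPDA.Reach (wd b m k n W) t c ∧ c.state ∈ colPDA.accept) ↔
    chi m k (Fin b) Finset.univ W = -1)

/-- CLK (180 lines; model: `Poly/ProdP.lean`, from `prd` on, with `dst` replaced by `M.δ`). The
product with a clock. -/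
def s_CLK : Prop := ∀ (h k : ℕ) (α : Type) (M : PDA α h) (C : FA Unit k) (T : ℕ → ℕ), M.Det →
  Pool.Agent.Poly.Clocks C T → ∃ M' : PDA α (h + k), M'.Det ∧
    M'.lang = {w | ∃ t ≤ T w.length, ∃ c, M.Reach w t c ∧ c.state ∈ M.accept} ∧
    ∀ w t c, M'.Reach w t c → t ≤ T w.length

/-! ### The lower bounds -/

/-- The lower bound on average. -/
def Avg {α : Type} (L : Set (List α)) (c : ℝ) : Prop :=
  ∀ k : ℕ, 1 ≤ k → ∃ δ : ℝ, 0 < δ ∧ ∀ᶠ n : ℕ in atTop,
    ∃ H : Finset (List α), H.Nonempty ∧ (∀ w ∈ H, w.length = n) ∧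
      ∀ (M : FA α k) (s t : ℕ), M.Det → Nat.card M.Q ≤ 2 ^ s →
        ((n : ℝ) + t) * (s + Real.log n) ≤ δ * (n : ℝ) ^ (c + (2 - c) / k) →
        ({w | w ∈ H ∧ (w ∈ L ↔ AcceptsIn M w t)}.ncard : ℝ) ≤
          (1 / 2 + Real.exp (-(δ * (n : ℝ) ^ (c - 1 + (2 - c) / k)))) * H.card

/-- The lower bound in the worst case. -/
def Wst {α : Type} (L : Set (List α)) (c : ℝ) : Prop :=
  ∀ k : ℕ, 1 ≤ k → ∀ M : FA α k, M.Det → M.lang = L → ∃ δ : ℝ, 0 < δ ∧
    ∀ᶠ n : ℕ in atTop, ∃ w ∈ L, w.length = n ∧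
      ∀ t, AcceptsIn M w t → δ * (n : ℝ) ^ (c + (2 - c) / k) / Real.log n ≤ t

/-- AVE (180 lines; model: `Det/Fin.lean`, `ofFA` … `average`; hypotheses `s_AGR`, `s_PAR`,
`s_SEM`, `s_GEO`). Proof as there: `H` is the image of `W ↦ wd b (64 m') k n W` (injective by GEO,
`(5 * (64 m'))^k = (320 m')^k`), `S = LT T`; `T` as in `s_PAR`. `Wt` is nonempty. -/
def s_AVE : Prop := ∀ (c K : ℝ) (T : ℕ → ℕ), 1 < c → c < 2 → 0 < K →
  (∀ n : ℕ, 0 < n → (T n : ℝ) ≤ K * (n : ℝ) ^ c) → (∀ n : ℕ, (n : ℝ) ^ c ≤ K * T n) →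
  Avg (LT T) c

/-- WOR (120 lines; model: `Det/Fin.lean`, `worst`, with `1 + 1/k`, `1/k` replaced by
`E = c + (2-c)/k`, `E - 1 > 0`: `n * n^(E-1) = n^E`). -/
def s_WOR : Prop := ∀ (α : Type) (L : Set (List α)) (c : ℝ), 1 ≤ c → c < 2 → Avg L c → Wst L c

/-- NOT (90 lines; model: `Det/Fin.lean`, `not_time`, with `ε = (2-c)/(2k)`). -/
def s_NOT : Prop := ∀ (α : Type) (L : Set (List α)) (c : ℝ), 1 ≤ c → c < 2 → Wst L c →
  ∀ f : ℕ → ℝ, (∀ ε : ℝ, 0 < ε → f =O[atTop] fun n : ℕ => (n : ℝ) ^ (c + ε)) →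
    ¬ ∃ k, 1 ≤ k ∧ ∃ M : FA α k, M.Det ∧ M.lang = L ∧
      ∀ w ∈ L, ∃ t : ℕ, (t : ℝ) ≤ f w.length ∧ AcceptsIn M w t

end Pool.Agent.TGC
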