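import Mathlib
import Pool.Agent.TGC.St

/-!
# Module FWD of the project TGC: one forward phase
-/

set_option autoImplicit false

namespace Pool.Agent.TGC

open Pool.Agent.Heads Pool.Agent.Det

namespace FWD_aux

theorem rn_comp {w : List Lm} {t : ℕ} {c1 c2 : Cfg Ph (Fin 4 → ℕ) Bool} (h2 : Rn w t c1 c2) :
    ∀ {s : ℕ} {c : Cfg Ph (Fin 4 → ℕ) Bool}, Rn w s c c1 → Rn w (s + t) c c2
  | 0, c, h1 => by
    have e : c = c1 := h1
    rw [e, Nat.zero_add]
    exact h2
  | s + 1, c, h1 => by
    obtain ⟨c', e, h⟩ := h1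
    rw [Nat.add_right_comm]
    exact ⟨c', e, rn_comp h2 h⟩

theorem rn_one {w : List Lm} {c c' : Cfg Ph (Fin 4 → ℕ) Bool} (h : stp w c = some c') :
    Rn w 1 c c' := ⟨c', h, rfl⟩

theorem ap_exec (a : Lt) (p v : Bool) (σ : List Bool) :
    exec a (p, v, σ) = ((ap a p v σ.head?).1, (ap a p v σ.head?).2.1,
      (ap a p v σ.head?).2.2.apply σ) := by
  cases a with
  | push b => rfl
  | pop => cases σ <;> rfl
  | leaf b => rfl
  | pad => rfl

theorem tape_letter (b m k n : ℕ) [NeZero b] (W : Wt m k (Fin b)) {x : ℕ} (hx : x < n) :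
    tape (wd b m k n W) (x + 1) = Sym.letter (wl b m k W x) := by
  have h : (wd b m k n W)[x]? = some (wl b m k W x) := by
    simp [wd, hx]
  simp only [tape, h]

theorem wd_len (b m k n : ℕ) [NeZero b] (W : Wt m k (Fin b)) : (wd b m k n W).length = n := by
  simp [wd]

theorem left_zero (w : List Lm) : isLeft (tape w 0) = true := rfl

theorem left_succ (w : List Lm) (x : ℕ) : isLeft (tape w (x + 1)) = false := by
  simp only [tape]
  cases w[x]? <;> rfl

theorem pq_zero (r : Bool) (x i j y : ℕ) : pq r x i j y 0 = x := by cases r <;> rfl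

theorem pq_src (r : Bool) (x i j y : ℕ) : pq r x i j y (src r) = i := by cases r <;> rfl

section

variable {b m k n : ℕ} [NeZero b] (W : Wt m k (Fin b))

theorem step_keep {x : ℕ} (hx : x < n) (hm : (wl b m k W x).2 = false) (r p v : Bool)
    (i j y : ℕ) (σ : List Bool) :
    stp (wd b m k n W) ⟨Ph.fwd r false p v, pq r (x + 1) i j y, σ⟩ =
      some ⟨Ph.fwd r false p v, pq r (x + 2) i j y, σ⟩ := by
  unfold stp
  rw [wd_len]
  have e : dl (Ph.fwd r false p v) (fun i' => tape (wd b m k n W) (pq r (x + 1) i j y i')) σ.head? =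
      some (Ph.fwd r false p v, dv Dir.R Dir.S Dir.S Dir.S, Op.none) := by
    simp only [dl, pq_zero, tape_letter b m k n W hx]
    rw [show wl b m k W x = ((wl b m k W x).1, (wl b m k W x).2) from rfl, hm]
    simp [fw]
  rw [e]
  simp only [Option.map_some, Option.some.injEq, Cfg.mk.injEq, true_and]
  refine ⟨?_, rfl⟩
  funext a
  have hmin : min (x + 1 + 1) (n + 1) = x + 2 := by omega
  cases r <;> fin_cases a <;> simp [pq, dv, move, hmin]

theorem step_move {x : ℕ} (hx : x < n) (g : Bool) (hm : (g || (wl b m k W x).2) = true)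
    (r p v : Bool) (i j y : ℕ) (hj : j ≤ n) (σ : List Bool) :
    stp (wd b m k n W) ⟨Ph.fwd r g p v, pq r (x + 1) (i + 1) j y, σ⟩ =
      some ⟨Ph.fwd r true p v, pq r (x + 2) i (j + 1) y, σ⟩ := by
  unfold stp
  rw [wd_len]
  have e : dl (Ph.fwd r g p v) (fun i' => tape (wd b m k n W) (pq r (x + 1) (i + 1) j y i'))
      σ.head? = some (Ph.fwd r true p v,
        if r then dv Dir.R Dir.R Dir.L Dir.S else dv Dir.R Dir.L Dir.R Dir.S, Op.none) := by
    simp only [dl, pq_zero, pq_src, tape_letter b m k n W hx, left_succ]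
    rw [show wl b m k W x = ((wl b m k W x).1, (wl b m k W x).2) from rfl]
    simp only [fw, hm, if_true]
    simp
  rw [e]
  simp only [Option.map_some, Option.some.injEq, Cfg.mk.injEq, true_and]
  refine ⟨?_, rfl⟩
  funext a
  have hmin : min (x + 1 + 1) (n + 1) = x + 2 := by omega
  have hmin2 : min (j + 1) (n + 1) = j + 1 := by omega
  cases r <;> fin_cases a <;> simp [pq, dv, move, hmin, hmin2]

theorem step_exec {x : ℕ} (hx : x < n) (g : Bool) (hm : (g || (wl b m k W x).2) = true)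
    (r p v : Bool) (j y : ℕ) (σ : List Bool) :
    stp (wd b m k n W) ⟨Ph.fwd r g p v, pq r (x + 1) 0 j y, σ⟩ =
      some ⟨Ph.fwd (!r) false (exec (wl b m k W x).1 (p, v, σ)).1
        (exec (wl b m k W x).1 (p, v, σ)).2.1, pq (!r) (x + 2) j 0 y,
        (exec (wl b m k W x).1 (p, v, σ)).2.2⟩ := by
  unfold stp
  rw [wd_len]
  have e : dl (Ph.fwd r g p v) (fun i' => tape (wd b m k n W) (pq r (x + 1) 0 j y i'))
      σ.head? = some (Ph.fwd (!r) false (ap (wl b m k W x).1 p v σ.head?).1
        (ap (wl b m k W x).1 p v σ.head?).2.1, dv Dir.R Dir.S Dir.S Dir.S,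
        (ap (wl b m k W x).1 p v σ.head?).2.2) := by
    simp only [dl, pq_zero, pq_src, tape_letter b m k n W hx, left_zero]
    rw [show wl b m k W x = ((wl b m k W x).1, (wl b m k W x).2) from rfl]
    simp only [fw, hm, if_true]
  rw [e, ap_exec]
  simp only [Option.map_some, Option.some.injEq, Cfg.mk.injEq, true_and, and_true]
  funext a
  have hmin : min (x + 1 + 1) (n + 1) = x + 2 := by omega
  cases r <;> fin_cases a <;> simp [pq, dv, move, hmin]

/-- unmarked cells -/
theorem run_keep (r p v : Bool) (i j y : ℕ) (σ : List Bool) (x : ℕ) : ∀ t : ℕ, x + t ≤ n →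
    (∀ o < t, (wl b m k W (x + o)).2 = false) →
    Rn (wd b m k n W) t ⟨Ph.fwd r false p v, pq r (x + 1) i j y, σ⟩
      ⟨Ph.fwd r false p v, pq r (x + t + 1) i j y, σ⟩ := by
  intro t
  induction t with
  | zero => intro _ _; exact rfl
  | succ t ih =>
    intro h1 h2
    refine rn_comp (rn_one ?_) (ih (by omega) fun o ho => h2 o (by omega))
    exact step_keep W (by omega) (h2 t (by omega)) r p v i j y σ

theorem wl_block {q : ℕ} (hq : q < (5 * m) ^ k) {o : ℕ} (ho : o < b) :
    wl b m k W (b * q + o) = (lt m k (Fin b) W ⟨o, ho⟩ q, decide (o = 0)) := by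
  have h1 : b * q + o < b * (5 * m) ^ k := by
    have : b * (q + 1) ≤ b * (5 * m) ^ k := Nat.mul_le_mul_left b hq
    rw [mul_add, mul_one] at this
    omega
  have h2 : (b * q + o) / b = q := by
    rw [Nat.mul_add_div (by omega), Nat.div_eq_of_lt ho, add_zero]
  have h3 : (b * q + o) % b = o := by
    rw [Nat.mul_add_mod, Nat.mod_eq_of_lt ho]
  unfold wl
  rw [if_pos h1, h2, h3]
  congr 2
  apply Fin.ext
  rw [Fin.ofNat]
  exact h3

/-- the source is emptied -/
theorem run_move {q : ℕ} (hq : q < (5 * m) ^ k) (hn : b * (5 * m) ^ k ≤ n) (i : Fin b)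
    (r p v : Bool) (y : ℕ) (σ : List Bool) : ∀ o : ℕ, o ≤ i →
    Rn (wd b m k n W) o ⟨Ph.fwd r false p v, pq r (b * q + 1) i 0 y, σ⟩
      ⟨Ph.fwd r (decide (0 < o)) p v, pq r (b * q + o + 1) (i - o) o y, σ⟩ := by
  have h1 : b * (q + 1) ≤ n := (Nat.mul_le_mul_left b hq).trans hn
  rw [mul_add, mul_one] at h1
  have hi := i.2
  intro o
  induction o with
  | zero => intro _; exact rfl
  | succ o ih =>
    intro ho
    refine rn_comp (rn_one ?_) (ih (by omega))
    have h2 : (i : ℕ) - o = (i - (o + 1)) + 1 := by omega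
    rw [h2]
    have h3 : (decide (0 < o) || (wl b m k W (b * q + o)).2) = true := by
      rw [wl_block W hq (by omega : o < b)]
      rcases Nat.eq_zero_or_pos o with h | h
      · simp [h]
      · simp [h]
    have := step_move (n := n) W (x := b * q + o) (by omega) _ h3 r p v (i - (o + 1)) o y
      (by omega) σ
    rw [this]
    simp [add_assoc]

/-- one block -/
theorem run_block {q : ℕ} (hq : q < (5 * m) ^ k) (hn : b * (5 * m) ^ k ≤ n) (i : Fin b)
    (r p v : Bool) (y : ℕ) (σ : List Bool) :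
    Rn (wd b m k n W) b ⟨Ph.fwd r false p v, pq r (b * q + 1) i 0 y, σ⟩
      ⟨Ph.fwd (!r) false (exec (lt m k (Fin b) W i q) (p, v, σ)).1
        (exec (lt m k (Fin b) W i q) (p, v, σ)).2.1, pq (!r) (b * (q + 1) + 1) i 0 y,
        (exec (lt m k (Fin b) W i q) (p, v, σ)).2.2⟩ := by
  have h1 : b * (q + 1) ≤ n := (Nat.mul_le_mul_left b hq).trans hn
  rw [mul_add, mul_one] at h1
  have hi := i.2
  have e : b = i + (1 + (b - 1 - i)) := by omega
  have hw : wl b m k W (b * q + i) = (lt m k (Fin b) W i q, decide ((i : ℕ) = 0)) :=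
    wl_block W hq hi
  have h3 : (decide (0 < (i : ℕ)) || (wl b m k W (b * q + i)).2) = true := by
    rw [hw]
    rcases Nat.eq_zero_or_pos (i : ℕ) with h | h
    · simp [h]
    · simp [h]
  have s1 := run_move W hq hn i r p v y σ i le_rfl
  have s2 := step_exec (n := n) W (x := b * q + i) (by omega) _ h3 r p v i y σ
  rw [Nat.sub_self] at s1
  rw [hw] at s2
  have s3 := run_keep (n := n) W (!r) (exec (lt m k (Fin b) W i q) (p, v, σ)).1
    (exec (lt m k (Fin b) W i q) (p, v, σ)).2.1 i 0 y (exec (lt m k (Fin b) W i q) (p, v, σ)).2.2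
    (b * q + i + 1) (b - 1 - i) (by omega) (by
      intro o ho
      have := wl_block W hq (by omega : (i : ℕ) + 1 + o < b)
      rw [show b * q + i + 1 + o = b * q + (i + 1 + o) by ring, this]
      simp)
  have e2 : b * q + i + 1 + (b - 1 - i) + 1 = b * (q + 1) + 1 := by
    rw [mul_add, mul_one]; omega
  rw [e2] at s3
  have := rn_comp (rn_comp s3 (rn_one s2)) s1
  rwa [← e] at this

/-- all blocks -/
theorem run_blocks (hn : b * (5 * m) ^ k ≤ n) (i : Fin b) (r v : Bool) (y : ℕ) :
    ∀ q : ℕ, q ≤ (5 * m) ^ k → ∃ r' : Bool, Rn (wd b m k n W) (b * q)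
      ⟨Ph.fwd r false true v, pq r 1 i 0 y, []⟩
      ⟨Ph.fwd r' false (rn (lt m k (Fin b) W i) 0 q (true, v, [])).1
        (rn (lt m k (Fin b) W i) 0 q (true, v, [])).2.1, pq r' (b * q + 1) i 0 y,
        (rn (lt m k (Fin b) W i) 0 q (true, v, [])).2.2⟩ := by
  intro q
  induction q with
  | zero => intro _; exact ⟨r, rfl⟩
  | succ q ih =>
    intro hq
    obtain ⟨r', h⟩ := ih (by omega)
    refine ⟨!r', ?_⟩
    have h1 := run_block W (by omega : q < (5 * m) ^ k) hn i r'
      (rn (lt m k (Fin b) W i) 0 q (true, v, [])).1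
      (rn (lt m k (Fin b) W i) 0 q (true, v, [])).2.1 y
      (rn (lt m k (Fin b) W i) 0 q (true, v, [])).2.2
    have h2 := rn_comp h1 h
    rw [mul_add, mul_one]
    have e : rn (lt m k (Fin b) W i) 0 (q + 1) (true, v, []) =
        exec (lt m k (Fin b) W i q) (rn (lt m k (Fin b) W i) 0 q (true, v, [])) := by
      show exec (lt m k (Fin b) W i (0 + q)) _ = _
      rw [Nat.zero_add]
    rw [e]
    rw [mul_add, mul_one] at h2
    exact h2

end

end FWD_aux

open FWD_aux in
theorem t_FWD : s_FWD := by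
  intro b m k n _ W i r v y hm hn
  obtain ⟨r', h1⟩ := run_blocks W hn i r v y ((5 * m) ^ k) le_rfl
  obtain ⟨p', v', e1, e2⟩ := rn_part m k (Fin b) W i true v []
  rw [if_pos rfl] at e2
  rw [e1] at h1
  refine ⟨r', p', v', ?_, e2⟩
  have h2 := run_keep (n := n) W r' p' v' i 0 y [] (b * (5 * m) ^ k) (n - b * (5 * m) ^ k)
    (by omega) (by
      intro o _
      unfold wl
      rw [if_neg (by omega)])
  have h3 := rn_comp h2 h1
  rw [show b * (5 * m) ^ k + (n - b * (5 * m) ^ k) = n by omega] at h3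
  exact h3

end Pool.Agent.TGC
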