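import Pool.Agent.TGC.St
import Pool.Agent.Lib_helper16.Det.Fin
import Pool.Agent.Lib_helper16.Poly.Final

/-!
# Time gaps for all exponents below 2: assembly
-/

set_option autoImplicit false

namespace Pool.Agent.TGC

open Pool.Agent.Heads Pool.Agent.Det Filter Asymptotics

/-- `L` is accepted by a two-way deterministic multihead pushdown automaton in time `f`: all
computations on a word `w` have at most `f |w|` steps. -/
def DPDATime (f : ℕ → ℝ) {α : Type} (L : Set (List α)) : Prop :=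
  ∃ k, 1 ≤ k ∧ ∃ M : PDA α k, M.Det ∧ M.lang = L ∧
    ∀ w t c, M.Reach w t c → (t : ℝ) ≤ f w.length

/-- `L` is accepted by a two-way deterministic multihead finite automaton in time `f`: every
word `w` in `L` is accepted in at most `f |w|` steps. -/
def DFATime (f : ℕ → ℝ) {α : Type} (L : Set (List α)) : Prop :=
  ∃ k, 1 ≤ k ∧ ∃ M : FA α k, M.Det ∧ M.lang = L ∧
    ∀ w ∈ L, ∃ t : ℕ, (t : ℝ) ≤ f w.length ∧ AcceptsIn M w t

lemma colPDA_det : colPDA.Det := by
  intro q x g a ha b hb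
  have ha' : dl q x g = some a := ha
  have hb' : dl q x g = some b := hb
  rw [ha'] at hb'
  exact Option.some.inj hb'

/-- The case `c = 1`. -/
theorem avg_one : Avg Pool.Agent.Det.Lang 1 := by
  intro k hk
  obtain ⟨c, hc, h⟩ := Pool.Agent.Det.average k hk
  refine ⟨c, hc, ?_⟩
  have e1 : (1 : ℝ) + (2 - 1) / (k : ℝ) = 1 + 1 / (k : ℝ) := by norm_num
  have e2 : (1 : ℝ) - 1 + (2 - 1) / (k : ℝ) = 1 / (k : ℝ) := by norm_num
  rw [e1, e2]
  exact h

/-- The theorem. -/
theorem main (hCLK : s_CLK) (hAVE : s_AVE) (hWOR : s_WOR) (hNOT : s_NOT) (c : ℚ) (h1 : 1 ≤ c)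
    (h2 : c < 2) : ∃ (α : Type) (_ : Finite α) (L : Set (List α)),
    (∃ C : ℝ, DPDATime (fun n => C * ((n : ℝ) + 1) ^ (c : ℝ)) L) ∧
    (c = 1 → ∃ M : PDA α 1, M.Det ∧ M.lang = L ∧
      ∀ w t cf, M.Reach w t cf → cf.pos 0 = min t (w.length + 1) ∧ t ≤ w.length + 2) ∧
    Wst L c ∧
    (∀ f : ℕ → ℝ, (∀ ε : ℝ, 0 < ε → f =O[atTop] fun n : ℕ => (n : ℝ) ^ ((c : ℝ) + ε)) →
      ¬ DFATime f L) ∧
    Avg L c := by
  have h2' : (c : ℝ) < 2 := by exact_mod_cast h2
  have h1' : (1 : ℝ) ≤ c := by exact_mod_cast h1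
  rcases eq_or_lt_of_le h1 with h | h
  · subst h
    have hfin : Finite Pool.Agent.Det.Lt := by
      refine Finite.of_surjective (α := Bool ⊕ Bool ⊕ Bool)
        (fun x => match x with
          | Sum.inl b => Pool.Agent.Det.Lt.push b
          | Sum.inr (Sum.inl b) => Pool.Agent.Det.Lt.leaf b
          | Sum.inr (Sum.inr true) => Pool.Agent.Det.Lt.pop
          | Sum.inr (Sum.inr false) => Pool.Agent.Det.Lt.pad) ?_
      intro a
      cases a with
      | push b => exact ⟨Sum.inl b, rfl⟩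
      | pop => exact ⟨Sum.inr (Sum.inr true), rfl⟩
      | leaf b => exact ⟨Sum.inr (Sum.inl b), rfl⟩
      | pad => exact ⟨Sum.inr (Sum.inr false), rfl⟩
    have e1 : ((1 : ℚ) : ℝ) = 1 := by norm_num
    have hA := avg_one
    have hW := hWOR _ _ 1 le_rfl (by norm_num) hA
    refine ⟨Pool.Agent.Det.Lt, hfin, Pool.Agent.Det.Lang, ?_, ?_, ?_, ?_, ?_⟩
    · refine ⟨2, 1, le_rfl, Pool.Agent.Det.evPDA, Pool.Agent.Det.evPDA_det,
        Pool.Agent.Det.evPDA_lang, fun w t cf h => ?_⟩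
      have := (Pool.Agent.Det.evPDA_pos w t cf h).2
      have h3 : (t : ℝ) ≤ w.length + 2 := by exact_mod_cast this
      show (t : ℝ) ≤ 2 * ((w.length : ℝ) + 1) ^ (((1 : ℚ) : ℝ))
      rw [e1, Real.rpow_one]
      have h4 : (0 : ℝ) ≤ w.length := Nat.cast_nonneg _
      linarith
    · exact fun _ => ⟨Pool.Agent.Det.evPDA, Pool.Agent.Det.evPDA_det,
        Pool.Agent.Det.evPDA_lang, fun w t cf h => Pool.Agent.Det.evPDA_pos w t cf h⟩
    · rw [e1]; exact hW
    · rw [e1]; exact hNOT _ _ 1 le_rfl (by norm_num) hW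
    · rw [e1]; exact hA
  · have h' : (1 : ℝ) < c := by exact_mod_cast h
    obtain ⟨T, C, K, g1, g2, hK, g3, g4, g5⟩ := Pool.Agent.Poly.exists_clock_rat c h1 h2
    have hA := hAVE c K T h' h2' hK g4 g5
    have hW := hWOR _ _ c h1' h2' hA
    have hfin : Finite Pool.Agent.Det.Lt := by
      refine Finite.of_surjective (α := Bool ⊕ Bool ⊕ Bool)
        (fun x => match x with
          | Sum.inl b => Pool.Agent.Det.Lt.push b
          | Sum.inr (Sum.inl b) => Pool.Agent.Det.Lt.leaf b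
          | Sum.inr (Sum.inr true) => Pool.Agent.Det.Lt.pop
          | Sum.inr (Sum.inr false) => Pool.Agent.Det.Lt.pad) ?_
      intro a
      cases a with
      | push b => exact ⟨Sum.inl b, rfl⟩
      | pop => exact ⟨Sum.inr (Sum.inr true), rfl⟩
      | leaf b => exact ⟨Sum.inr (Sum.inl b), rfl⟩
      | pad => exact ⟨Sum.inr (Sum.inr false), rfl⟩
    obtain ⟨M', m1, m2, m3⟩ := hCLK 4 3 Lm colPDA C T colPDA_det g1
    refine ⟨Lm, inferInstance, LT T, ⟨K, 4 + 3, by norm_num, M', m1, m2, fun w t cf h => ?_⟩,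
      fun h => absurd h (ne_of_gt (by assumption)), hW, hNOT _ _ c h1' h2' hW, hA⟩
    exact (Nat.cast_le.2 (m3 w t cf h)).trans (g3 _)

end Pool.Agent.TGC
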