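import Pool.Agent.TGC.St

/-!
# Module GEO: the geometry of the interleaved words
-/

set_option autoImplicit false

namespace Pool.Agent.TGC

open Pool.Agent.Heads Pool.Agent.Det

namespace GEO_aux

theorem zc_of_gc (b m k p i : ℕ) (h : gc b m k p = some i) : zc b m k p = i := by
  unfold gc at h
  unfold zc
  split_ifs at h ⊢ with h1
  exact zo_of_gp m k _ _ h

theorem div_bounds {b p q : ℕ} (hb : 0 < b) (hp : 1 ≤ p) (hq : q = (p - 1) / b) :
    b * q + 1 ≤ p ∧ p ≤ b * q + b := by
  have h1 := Nat.div_add_mod (p - 1) b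
  have h2 := Nat.mod_lt (p - 1) hb
  rw [← hq] at h1
  omega

theorem gg_eq {b m k i : ℕ} (hm : 0 < m) :
    gg b m k i + b = b * (m * (5 * m) ^ (k - 1 - i)) + 1 := by
  have hg : 1 ≤ m * (5 * m) ^ (k - 1 - i) := by
    have : 0 < m * (5 * m) ^ (k - 1 - i) := by positivity
    exact this
  unfold gg
  obtain ⟨g, hg'⟩ : ∃ g, m * (5 * m) ^ (k - 1 - i) = g + 1 := ⟨_, (Nat.sub_add_cancel hg).symm⟩
  rw [hg', Nat.add_sub_cancel]
  ring

theorem gap (b m k : ℕ) (hb : 0 < b) (hm : 0 < m) : ∀ i < k, ∀ p p', i + 1 ≤ zc b m k p →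
    (gc b m k p' = some i ∨ zc b m k p' < i) →
    p + gg b m k i ≤ p' ∨ p' + gg b m k i ≤ p := by
  intro i hi p p' hz h
  have eg := gg_eq (b := b) (m := m) (k := k) (i := i) hm
  unfold zc at hz
  split_ifs at hz with h1
  · set q := (p - 1) / b with hq
    obtain ⟨a1, a2⟩ := div_bounds hb h1.1 hq
    have hql : q < (5 * m) ^ k := by
      by_contra hcon
      have : b * (5 * m) ^ k ≤ b * q := Nat.mul_le_mul_left _ (not_lt.1 hcon)
      omega
    by_cases h2 : 1 ≤ p' ∧ p' ≤ b * (5 * m) ^ k
    · set q' := (p' - 1) / b with hq'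
      obtain ⟨a3, a4⟩ := div_bounds hb h2.1 hq'
      have hql' : q' < (5 * m) ^ k := by
        by_contra hcon
        have : b * (5 * m) ^ k ≤ b * q' := Nat.mul_le_mul_left _ (not_lt.1 hcon)
        omega
      have h3 : gp m k q' = some i ∨ zo m k q' < i := by
        rcases h with h | h
        · left; unfold gc at h; rwa [if_pos h2] at h
        · right; unfold zc at h; rwa [if_pos h2] at h
      rcases gap_inner m hm k i q q' hi hql hql' hz h3 with h4 | h4
      · left
        have h5 : b * (q + m * (5 * m) ^ (k - 1 - i)) ≤ b * q' := Nat.mul_le_mul_left _ h4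
        rw [Nat.mul_add] at h5
        omega
      · right
        have h5 : b * (q' + m * (5 * m) ^ (k - 1 - i)) ≤ b * q := Nat.mul_le_mul_left _ h4
        rw [Nat.mul_add] at h5
        omega
    · have h3 : 0 < i := by
        rcases h with h | h
        · unfold gc at h; rw [if_neg h2] at h; exact absurd h (by simp)
        · omega
      obtain ⟨k', rfl⟩ : ∃ k', k = k' + 1 := ⟨k - 1, by omega⟩
      obtain ⟨h4, h5⟩ := zo_pos hm (show 1 ≤ zo m (k' + 1) q by omega)
      have h6 : m * (5 * m) ^ (k' + 1 - 1 - i) ≤ m * (5 * m) ^ k' :=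
        Nat.mul_le_mul_left _ (pow_le_of hm (by omega))
      have h6' := Nat.mul_le_mul_left b h6
      have h4' := Nat.mul_le_mul_left b h4
      have h5' := Nat.mul_le_mul_left b (Nat.succ_le_of_lt h5)
      have e6 : b * (2 * m * (5 * m) ^ k') =
          b * (m * (5 * m) ^ k') + b * (m * (5 * m) ^ k') := by ring
      have e5 : b * (4 * m * (5 * m) ^ k') = b * (m * (5 * m) ^ k') + b * (m * (5 * m) ^ k') +
          b * (m * (5 * m) ^ k') + b * (m * (5 * m) ^ k') := by ring
      have e7 : b * (5 * m) ^ (k' + 1) = b * (m * (5 * m) ^ k') + b * (m * (5 * m) ^ k') +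
          b * (m * (5 * m) ^ k') + b * (m * (5 * m) ^ k') + b * (m * (5 * m) ^ k') := by ring
      have e8 : b * Nat.succ q = b * q + b := by rw [Nat.mul_succ]
      rw [e7] at h2
      rw [e6] at h4'
      rw [e5, e8] at h5'
      omega
  · omega

theorem getElem?_wd (b m k n : ℕ) [NeZero b] (W : Wt m k (Fin b)) (p : ℕ) (hp : p < n) :
    (wd b m k n W)[p]? = some (wl b m k W p) := by
  unfold wd
  rw [List.getElem?_map, List.getElem?_range hp]
  rfl

theorem length_wd (b m k n : ℕ) [NeZero b] (W : Wt m k (Fin b)) : (wd b m k n W).length = n := by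
  simp [wd]

theorem tape_congr (b m k n : ℕ) [NeZero b] (W W' : Wt m k (Fin b)) (j p : ℕ)
    (h : Agree m k (Fin b) j W W') (hp : gc b m k p ≠ some j) :
    tape (wd b m k n W) p = tape (wd b m k n W') p := by
  cases p with
  | zero => rfl
  | succ p =>
    have key : (wd b m k n W)[p]? = (wd b m k n W')[p]? := by
      rcases Nat.lt_or_ge p n with h1 | h1
      · rw [getElem?_wd _ _ _ _ _ _ h1, getElem?_wd _ _ _ _ _ _ h1]
        unfold wl
        by_cases h2 : p < b * (5 * m) ^ k
        · rw [if_pos h2, if_pos h2]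
          congr 2
          refine lt_congr m k (Fin b) W W' _ (p / b) j ?_ h
          unfold gc at hp
          rw [if_pos ⟨by omega, by omega⟩] at hp
          exact hp
        · rw [if_neg h2, if_neg h2]
      · rw [List.getElem?_eq_none (by rw [length_wd]; exact h1),
          List.getElem?_eq_none (by rw [length_wd]; exact h1)]
    unfold tape
    simp only
    rw [key]

theorem wd_inj (b m k n : ℕ) [NeZero b] (hm : 0 < m) (hn : b * (5 * m) ^ k ≤ n) :
    Function.Injective fun W : Wt m k (Fin b) => wd b m k n W := by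
  intro W W' h
  have h : wd b m k n W = wd b m k n W' := h
  refine lt_inj m hm k (Fin b) W W' ?_
  intro i q hq
  have hb : 0 < b := Nat.pos_of_ne_zero (NeZero.ne b)
  have hi := i.2
  have hlt : b * q + i < b * (5 * m) ^ k := by
    have h1 : b * (q + 1) ≤ b * (5 * m) ^ k := Nat.mul_le_mul_left _ hq
    rw [Nat.mul_add, Nat.mul_one] at h1
    omega
  have h1 := getElem?_wd b m k n W (b * q + i) (by omega)
  have h2 := getElem?_wd b m k n W' (b * q + i) (by omega)
  rw [h] at h1
  rw [h1] at h2
  have h3 := Option.some.inj h2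
  unfold wl at h3
  rw [if_pos hlt, if_pos hlt] at h3
  have e1 : (b * q + i) / b = q := by
    rw [Nat.add_comm, Nat.add_mul_div_left _ _ hb, Nat.div_eq_of_lt hi, Nat.zero_add]
  have e2 : Fin.ofNat b (b * q + i) = i := by
    apply Fin.ext
    show (b * q + i) % b = i
    rw [Nat.add_comm, Nat.add_mul_mod_self_left, Nat.mod_eq_of_lt hi]
  rw [e1, e2] at h3
  exact congrArg Prod.fst h3

end GEO_aux

theorem t_GEO : s_GEO := by
  intro b m k _ hm
  have hb : 0 < b := Nat.pos_of_ne_zero (NeZero.ne b)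
  refine ⟨fun p i h => GEO_aux.zc_of_gc b m k p i h, GEO_aux.gap b m k hb hm, fun i => ?_,
    fun i j hij => ?_, fun n W W' j p h hp => GEO_aux.tape_congr b m k n W W' j p h hp,
    fun n W => GEO_aux.length_wd b m k n W, fun n hn => GEO_aux.wd_inj b m k n hm hn⟩
  · unfold gg
    omega
  · unfold gg
    have h1 : m * (5 * m) ^ (k - 1 - j) ≤ m * (5 * m) ^ (k - 1 - i) :=
      Nat.mul_le_mul_left _ (pow_le_of hm (by omega))
    exact Nat.add_le_add_right (Nat.mul_le_mul_left _ (Nat.sub_le_sub_right h1 1)) 1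

end Pool.Agent.TGC
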