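import Pool.Agent.TGC.St

/-!
# Module NOT: from the lower bound in the worst case to the separation
-/

set_option autoImplicit false

namespace Pool.Agent.TGC

open Pool.Agent.Heads Pool.Agent.Det Filter Asymptotics

namespace NOT_aux

lemma log_le (s : ℝ) {y : ℝ} (hy : 0 < y) {d : ℝ} (hd : 0 < d) :
    ∀ᶠ n : ℕ in atTop, s + Real.log n ≤ d * (n : ℝ) ^ y := by
  have h1 := (isLittleO_log_rpow_atTop hy).comp_tendsto tendsto_natCast_atTop_atTop
  have h2 := h1.def (show (0 : ℝ) < d / 2 by positivity)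
  have h3 : Tendsto (fun n : ℕ => (n : ℝ) ^ y) atTop atTop :=
    (tendsto_rpow_atTop hy).comp tendsto_natCast_atTop_atTop
  filter_upwards [h2, h3.eventually_ge_atTop (2 * s / d)] with n h4 h5
  simp only [Function.comp_apply, Real.norm_eq_abs] at h4
  have h6 : (0 : ℝ) ≤ (n : ℝ) ^ y := by positivity
  rw [abs_of_nonneg h6] at h4
  have h7 := (le_abs_self _).trans h4
  rw [div_le_iff₀ hd] at h5
  nlinarith

end NOT_aux

/-- Module NOT. -/
theorem t_NOT : s_NOT := by
  intro α L c _ hc2 hW f hf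
  rintro ⟨k, hk, M, hM, hL, ht⟩
  have hk0 : (0 : ℝ) < k := by exact_mod_cast hk
  obtain ⟨δ, hδ, h⟩ := hW k hk M hM hL
  set ε : ℝ := (2 - c) / (2 * k) with hε
  have hε0 : 0 < ε := by
    have : 0 < 2 - c := by linarith
    positivity
  obtain ⟨K, hK, hfK⟩ := (hf ε hε0).exists_pos
  rw [IsBigOWith] at hfK
  have hlog := NOT_aux.log_le 0 (y := ε) hε0 (show (0 : ℝ) < δ / (2 * K) by positivity)
  have hlog1 : Tendsto (fun n : ℕ => Real.log n) atTop atTop :=
    Real.tendsto_log_atTop.comp tendsto_natCast_atTop_atTop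
  obtain ⟨n, hn, hfn, hl, hl1, hn0⟩ := (h.and (hfK.and (hlog.and
    ((hlog1.eventually_ge_atTop 1).and (eventually_gt_atTop 0))))).exists
  obtain ⟨w, hw, hwn, hwt⟩ := hn
  obtain ⟨t, ht1, ht2⟩ := ht w hw
  have h1 := hwt t ht2
  rw [hwn] at ht1
  have hn0' : (0 : ℝ) < n := by exact_mod_cast hn0
  have h2 : f n ≤ K * (n : ℝ) ^ (c + ε) := by
    have := (le_abs_self _).trans hfn
    rwa [Real.norm_eq_abs, abs_of_nonneg (by positivity)] at this
  have h3 : δ * (n : ℝ) ^ (c + (2 - c) / (k : ℝ)) / Real.log n ≤ K * (n : ℝ) ^ (c + ε) :=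
    h1.trans (ht1.trans h2)
  have hlpos : 0 < Real.log n := by linarith
  rw [div_le_iff₀ hlpos] at h3
  have e1 : (n : ℝ) ^ (c + (2 - c) / (k : ℝ)) = (n : ℝ) ^ (c + ε) * (n : ℝ) ^ ε := by
    rw [← Real.rpow_add hn0']
    congr 1
    rw [hε]
    field_simp
    ring
  rw [e1] at h3
  have hA : (0 : ℝ) < (n : ℝ) ^ (c + ε) := by positivity
  have hB : (0 : ℝ) < (n : ℝ) ^ ε := by positivity
  have h4 : δ * (n : ℝ) ^ ε ≤ K * Real.log n := by
    refine le_of_mul_le_mul_left ?_ hA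
    nlinarith
  have h5 : K * Real.log n ≤ δ / 2 * (n : ℝ) ^ ε := by
    rw [zero_add] at hl
    calc K * Real.log n ≤ K * (δ / (2 * K) * (n : ℝ) ^ ε) :=
          mul_le_mul_of_nonneg_left hl hK.le
      _ = _ := by field_simp
  have h6 : 0 < δ * (n : ℝ) ^ ε := by positivity
  linarith

end Pool.Agent.TGC
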