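import Mathlib
import Pool.Agent.TGC.St

/-!
# Module PAR: the parameters
-/

set_option autoImplicit false

namespace Pool.Agent.TGC

open Pool.Agent.Heads Pool.Agent.Det Filter

namespace PAR_aux

/-- The number of the pairs of extended configurations. -/
lemma nat_one {k n s t a L : ℕ} (ha : n + 2 ≤ 2 ^ a) (ht : t + 1 ≤ (n + 2) ^ 2) (hkn : k ≤ n)
    (hL : L = 2 * (s + (k + 3) * a) + 2) (q : ℕ) (hq : q ≤ 2 ^ s) :
    ncf q n k t * (ncf q n k t + 1) + 1 ≤ 2 ^ L := by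
  unfold ncf
  set b := s + (k + 3) * a with hbdef
  have h1 : q * ((n + 2) ^ k * ((k + 1) * (t + 1))) ≤ 2 ^ b := by
    calc q * ((n + 2) ^ k * ((k + 1) * (t + 1))) ≤
          2 ^ s * ((n + 2) ^ k * ((n + 2) * (n + 2) ^ 2)) := by
          refine Nat.mul_le_mul hq (Nat.mul_le_mul_left _ (Nat.mul_le_mul (by omega) ht))
      _ = 2 ^ s * (n + 2) ^ (k + 3) := by ring
      _ ≤ 2 ^ s * (2 ^ a) ^ (k + 3) := Nat.mul_le_mul_left _ (Nat.pow_le_pow_left ha _)
      _ = 2 ^ b := by rw [← pow_mul, ← pow_add, hbdef]; congr 1; ring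
  have h2 : 1 ≤ 2 ^ b := Nat.one_le_two_pow
  calc q * ((n + 2) ^ k * ((k + 1) * (t + 1))) *
        (q * ((n + 2) ^ k * ((k + 1) * (t + 1))) + 1) + 1 ≤ 2 ^ b * (2 ^ b + 1) + 1 :=
        Nat.succ_le_succ (Nat.mul_le_mul h1 (Nat.succ_le_succ h1))
    _ ≤ 2 ^ b * 2 ^ b * 4 := by nlinarith
    _ = 2 ^ L := by rw [hL]; ring

/-- The second clause. -/
lemma nat_two {b k m' n t L : ℕ} (hb1 : 1 ≤ b) (hm : 1 ≤ m') (hn : b * (320 * m') ^ k ≤ n)
    (hb : (n + t) * L ≤ b ^ 2 * m' ^ (k + 1)) (j : ℕ) (hj : j < k) :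
    2 ^ j * (2 ^ j * (t / gg b (64 * m') k j + 1) * L) ≤ m' * b * (16 * m') ^ j := by
  obtain ⟨g, hg⟩ : ∃ g, g = 64 * m' * (5 * (64 * m')) ^ (k - 1 - j) := ⟨_, rfl⟩
  obtain ⟨G, hG⟩ : ∃ G, G = gg b (64 * m') k j := ⟨_, rfl⟩
  have hGv : G = b * (g - 1) + 1 := by rw [hG, hg]; rfl
  have hgv : g = 64 * m' * (320 * m') ^ (k - 1 - j) := by
    rw [hg]
    congr 2
    ring
  have hg64 : 64 ≤ g := by
    rw [hgv]
    calc 64 = 64 * 1 * 1 := by norm_num
      _ ≤ 64 * m' * (320 * m') ^ (k - 1 - j) :=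
        Nat.mul_le_mul (Nat.mul_le_mul_left _ hm) (Nat.one_le_pow _ _ (by omega))
  obtain ⟨g', hg'⟩ : ∃ g', g = g' + 1 := ⟨g - 1, by omega⟩
  have hGv' : G = b * g' + 1 := by
    rw [hGv, hg', Nat.add_sub_cancel]
  have hGpos : 0 < G := by omega
  have hbg : b * g ≤ 2 * G := by
    rw [hGv', hg', mul_add, mul_one]
    have h1 : b * 1 ≤ b * g' := Nat.mul_le_mul_left _ (by omega)
    omega
  have hGb : G ≤ b * g := by
    rw [hGv', hg', mul_add, mul_one]
    omega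
  have hGn : G ≤ n := by
    calc G ≤ b * g := hGb
      _ ≤ b * (320 * m') ^ k := by
        refine Nat.mul_le_mul_left _ ?_
        calc g ≤ (320 * m') * (320 * m') ^ (k - 1 - j) := by
              rw [hgv]; exact Nat.mul_le_mul_right _ (by omega)
          _ = (320 * m') ^ (k - 1 - j + 1) := by ring
          _ ≤ (320 * m') ^ k := Nat.pow_le_pow_right (by omega) (by omega)
      _ ≤ n := hn
  have h1 : (t / G + 1) * G ≤ t + n := by
    have := Nat.div_mul_le_self t G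
    rw [add_mul, one_mul]
    omega
  rw [← hG]
  refine Nat.le_of_mul_le_mul_right ?_ (show 0 < 2 * G by omega)
  calc 2 ^ j * (2 ^ j * (t / G + 1) * L) * (2 * G) = 4 ^ j * (2 * (((t / G + 1) * G) * L)) := by
        rw [show (4 : ℕ) = 2 * 2 by norm_num, mul_pow]; ring
    _ ≤ 4 ^ j * (2 * ((n + t) * L)) :=
        Nat.mul_le_mul_left _ (Nat.mul_le_mul_left _ (Nat.mul_le_mul_right _
          (h1.trans (by omega))))
    _ ≤ 4 ^ j * (2 * (b ^ 2 * m' ^ (k + 1))) :=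
        Nat.mul_le_mul_left _ (Nat.mul_le_mul_left _ hb)
    _ = 4 ^ j * 2 * (b ^ 2 * m' ^ (k + 1)) := by ring
    _ ≤ 16 ^ j * 320 ^ (k - 1 - j) * 64 * (b ^ 2 * m' ^ (k + 1)) := by
        refine Nat.mul_le_mul_right _ ?_
        calc 4 ^ j * 2 ≤ 16 ^ j * 64 := Nat.mul_le_mul (Nat.pow_le_pow_left (by norm_num) _)
              (by norm_num)
          _ = 16 ^ j * 1 * 64 := by ring
          _ ≤ 16 ^ j * 320 ^ (k - 1 - j) * 64 := by
              refine Nat.mul_le_mul_right _ (Nat.mul_le_mul_left _ ?_)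
              exact Nat.one_le_pow _ _ (by norm_num)
    _ = m' * b * (16 * m') ^ j * (b * g) := by
        rw [hgv, mul_pow, mul_pow]
        have e1 : m' ^ (k + 1) = m' * m' ^ j * m' * m' ^ (k - 1 - j) := by
          rw [← pow_succ', ← pow_succ, ← pow_add]
          congr 1
          omega
        rw [e1]
        ring
    _ ≤ m' * b * (16 * m') ^ j * (2 * G) := Nat.mul_le_mul_left _ hbg

/-- The exponential clause. -/
lemma exp_bound {M : ℕ} {x : ℝ} (hM : 2 ≤ M) (hx : x ≤ M / 40) :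
    2 * (1 / 2 : ℝ) ^ M ≤ Real.exp (-x) := by
  have e1 : 2 * (1 / 2 : ℝ) ^ M = Real.exp (-((M - 1 : ℝ) * Real.log 2)) := by
    have h1 : (1 / 2 : ℝ) ^ M = Real.exp (-(M * Real.log 2)) := by
      rw [one_div, inv_pow, Real.exp_neg, mul_comm, Real.exp_mul,
        Real.exp_log (by norm_num), Real.rpow_natCast]
    have h2 : (2 : ℝ) = Real.exp (Real.log 2) := (Real.exp_log (by norm_num)).symm
    rw [h1]
    conv_lhs => rw [h2]
    rw [← Real.exp_add]
    congr 1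
    rw [Real.exp_log (by norm_num)]
    ring
  rw [e1, Real.exp_le_exp]
  have h2 : (0.6931471803 : ℝ) < Real.log 2 := Real.log_two_gt_d9
  have h3 : (2 : ℝ) ≤ M := by exact_mod_cast hM
  nlinarith

/-- The number of binary digits. -/
lemma log_bound {n : ℕ} (hn3 : 3 ≤ n) :
    ((Nat.log 2 (n + 2) + 1 : ℕ) : ℝ) ≤ 4 * Real.log n ∧ 1 ≤ Real.log n := by
  have hn0 : (0 : ℝ) < n := by
    have : 0 < n := by omega
    exact_mod_cast this
  have hn3' : (3 : ℝ) ≤ n := by exact_mod_cast hn3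
  have hlog1 : 1 ≤ Real.log n := by
    rw [Real.le_log_iff_exp_le hn0]
    have := Real.exp_one_lt_d9
    linarith
  refine ⟨?_, hlog1⟩
  have h1 : ((Nat.log 2 (n + 2) : ℕ) : ℝ) * Real.log 2 ≤ Real.log (n + 2) := by
    rw [← Real.log_pow]
    refine Real.log_le_log (by positivity) ?_
    have : 2 ^ Nat.log 2 (n + 2) ≤ n + 2 := Nat.pow_log_le_self 2 (by omega)
    exact_mod_cast this
  have h2 : Real.log (n + 2) ≤ 2 * Real.log n := by
    rw [← Real.log_rpow hn0]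
    refine Real.log_le_log (by positivity) ?_
    rw [Real.rpow_two]
    nlinarith
  have h3 : (0.6931471803 : ℝ) < Real.log 2 := Real.log_two_gt_d9
  have h4 : ((Nat.log 2 (n + 2) : ℕ) : ℝ) ≤ 3 * Real.log n := by
    by_contra hcon
    push Not at hcon
    nlinarith
  push_cast
  linarith

end PAR_aux

open PAR_aux in
theorem t_PAR : s_PAR := by
  intro c K T hc1 hc2 hK hTu hTl k hk
  have hk0 : (0 : ℝ) < k := by exact_mod_cast hk
  have hk1 : (1 : ℝ) ≤ k := by exact_mod_cast hk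
  -- `K ≥ 1`
  have hK1 : 1 ≤ K := by
    have h1 := hTu 1 one_pos
    have h2 := hTl 1
    simp only [Nat.cast_one, Real.one_rpow, mul_one] at h1 h2
    nlinarith
  obtain ⟨C, hC⟩ : ∃ C : ℝ, C = (8 * k + 40) * 640 ^ (k + 1) := ⟨_, rfl⟩
  have hCpos : 0 < C := by rw [hC]; positivity
  have hC640 : (640 : ℝ) * 40 ≤ C := by
    have h1 : (640 : ℝ) ^ 1 ≤ 640 ^ (k + 1) := pow_le_pow_right₀ (by norm_num) (by omega)
    rw [hC]
    nlinarith
  obtain ⟨η, hη⟩ : ∃ η : ℝ, η = 1 / (8 * K) := ⟨_, rfl⟩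
  have hη0 : 0 < η := by rw [hη]; positivity
  have hη1 : η ≤ 1 := by
    rw [hη, div_le_one (by positivity)]
    linarith
  have hηK : η * (8 * K) = 1 := by
    rw [hη]
    field_simp
  obtain ⟨E, hE⟩ : ∃ E : ℝ, E = c - 1 + (2 - c) / k := ⟨_, rfl⟩
  have hE1 : c + (2 - c) / k = 1 + E := by rw [hE]; ring
  have hE2 : 1 + E ≤ 2 := by
    have h1 : (2 - c) / k ≤ 2 - c := div_le_self (by linarith) hk1
    rw [hE]
    linarith
  refine ⟨η / C, by positivity, ?_⟩
  have hlim1 : Tendsto (fun n : ℕ => (n : ℝ) ^ (c - 1)) atTop atTop :=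
    (tendsto_rpow_atTop (by linarith)).comp tendsto_natCast_atTop_atTop
  have hlim2 : Tendsto (fun n : ℕ => (n : ℝ) ^ (2 - c)) atTop atTop :=
    (tendsto_rpow_atTop (by linarith)).comp tendsto_natCast_atTop_atTop
  filter_upwards [hlim1.eventually_ge_atTop (8 * K), hlim2.eventually_ge_atTop (K * 1000 ^ k),
    eventually_ge_atTop (max k 3)] with n hn1 hn1' hn2
  have hnk : k ≤ n := (le_max_left _ _).trans hn2
  have hn3 : 3 ≤ n := (le_max_right _ _).trans hn2
  have hn0 : (0 : ℝ) < n := by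
    have : 0 < n := by omega
    exact_mod_cast this
  have hn3' : (3 : ℝ) ≤ n := by exact_mod_cast hn3
  have hnc : (n : ℝ) ^ c = (n : ℝ) ^ (c - 1) * n := by
    rw [← Real.rpow_add_one hn0.ne']
    congr 1
    ring
  have hTpos : 1 ≤ T n := by
    have h1 := hTl n
    have h2 : (0 : ℝ) < (n : ℝ) ^ c := Real.rpow_pos_of_pos hn0 _
    by_contra h3
    have h4 : T n = 0 := by omega
    rw [h4, Nat.cast_zero, mul_zero] at h1
    linarith
  -- the number of the instances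
  obtain ⟨b, hb⟩ : ∃ b, b = (T n - 1) / (2 * n + 3) := ⟨_, rfl⟩
  have hbT : 1 + b * (2 * n + 3) ≤ T n := by
    have := Nat.div_mul_le_self (T n - 1) (2 * n + 3)
    rw [← hb] at this
    omega
  have hbT2 : T n ≤ (b + 1) * (2 * n + 3) := by
    have h1 := Nat.div_add_mod (T n - 1) (2 * n + 3)
    have h2 := Nat.mod_lt (T n - 1) (show 0 < 2 * n + 3 by omega)
    rw [← hb] at h1
    have h3 : (b + 1) * (2 * n + 3) = (2 * n + 3) * b + (2 * n + 3) := by ring
    omega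
  have hbl : η * (n : ℝ) ^ (c - 1) ≤ b := by
    have h1 : (n : ℝ) ^ c ≤ K * ((b + 1) * (2 * n + 3)) := by
      refine (hTl n).trans (mul_le_mul_of_nonneg_left ?_ hK.le)
      exact_mod_cast hbT2
    have h2 : K * (((b : ℝ) + 1) * (2 * n + 3)) ≤ K * (((b : ℝ) + 1) * (3 * n)) := by
      refine mul_le_mul_of_nonneg_left (mul_le_mul_of_nonneg_left (by linarith) ?_) hK.le
      positivity
    have h3 : (n : ℝ) ^ (c - 1) * n ≤ (3 * K * ((b : ℝ) + 1)) * n := by
      rw [← hnc]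
      calc (n : ℝ) ^ c ≤ K * (((b : ℝ) + 1) * (2 * n + 3)) := h1
        _ ≤ K * (((b : ℝ) + 1) * (3 * n)) := h2
        _ = (3 * K * ((b : ℝ) + 1)) * n := by ring
    have h4 : (n : ℝ) ^ (c - 1) ≤ 3 * K * ((b : ℝ) + 1) := le_of_mul_le_mul_right h3 hn0
    have h5 : (8 * K) * (η * (n : ℝ) ^ (c - 1)) ≤ (8 * K) * b := by
      have h6 : (8 * K) * (η * (n : ℝ) ^ (c - 1)) = (n : ℝ) ^ (c - 1) := by
        rw [← mul_assoc, mul_comm (8 * K) η, hηK, one_mul]
      rw [h6]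
      nlinarith
    exact le_of_mul_le_mul_left h5 (by positivity)
  have hb1' : (1 : ℝ) ≤ b := by
    refine le_trans ?_ hbl
    calc (1 : ℝ) = η * (8 * K) := hηK.symm
      _ ≤ η * (n : ℝ) ^ (c - 1) := mul_le_mul_of_nonneg_left hn1 hη0.le
  have hb1 : 1 ≤ b := by exact_mod_cast hb1'
  have hb0 : (0 : ℝ) < b := by linarith
  have hbu : (b : ℝ) * (n : ℝ) ^ (2 - c) ≤ K * n := by
    have h1 : ((b * (2 * n + 3) : ℕ) : ℝ) ≤ K * (n : ℝ) ^ c := by
      refine le_trans ?_ (hTu n (by omega))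
      exact_mod_cast (show b * (2 * n + 3) ≤ T n by omega)
    push_cast at h1
    have h2 : (b : ℝ) * n ≤ K * (n : ℝ) ^ c := by nlinarith
    have h3 : (b : ℝ) * n * (n : ℝ) ^ (2 - c) ≤ K * (n : ℝ) ^ c * (n : ℝ) ^ (2 - c) :=
      mul_le_mul_of_nonneg_right h2 (Real.rpow_nonneg hn0.le _)
    have h4 : (n : ℝ) ^ c * (n : ℝ) ^ (2 - c) = n * n := by
      rw [← Real.rpow_add hn0, show c + (2 - c) = (2 : ℝ) by ring, Real.rpow_two, pow_two]
    rw [mul_assoc K, h4] at h3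
    have h5 : (b : ℝ) * (n : ℝ) ^ (2 - c) * n ≤ K * n * n := by linarith
    exact le_of_mul_le_mul_right h5 hn0
  -- the size
  obtain ⟨y, hy⟩ : ∃ y : ℝ, y = ((n : ℝ) / b) ^ (1 / (k : ℝ)) := ⟨_, rfl⟩
  have hnb0 : (0 : ℝ) < (n : ℝ) / b := by positivity
  have hypos : 0 < y := by rw [hy]; exact Real.rpow_pos_of_pos hnb0 _
  have hyk : y ^ k = (n : ℝ) / b := by
    rw [hy, ← Real.rpow_natCast, ← Real.rpow_mul hnb0.le, one_div,
      inv_mul_cancel₀ hk0.ne', Real.rpow_one]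
  have hbyk : (b : ℝ) * y ^ k = n := by
    rw [hyk]
    field_simp
  have hy1000 : 1000 ≤ y := by
    by_contra hcon
    push Not at hcon
    have h1 : y ^ k < 1000 ^ k := pow_lt_pow_left₀ hcon hypos.le (by omega)
    have h2 : (b : ℝ) * y ^ k < b * 1000 ^ k := mul_lt_mul_of_pos_left h1 hb0
    rw [hbyk] at h2
    have h3 : K * n < K * (b * 1000 ^ k) := mul_lt_mul_of_pos_left h2 hK
    have h4 : (b : ℝ) * (K * 1000 ^ k) ≤ b * (n : ℝ) ^ (2 - c) :=
      mul_le_mul_of_nonneg_left hn1' hb0.le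
    linarith
  have hby : η * (n : ℝ) ^ E ≤ b * y := by
    have h1 : (η * (n : ℝ) ^ E) ^ k ≤ (b * y) ^ k := by
      have h2 : ((n : ℝ) ^ E) ^ k = ((n : ℝ) ^ (c - 1)) ^ (k - 1) * n := by
        rw [← Real.rpow_mul_natCast hn0.le, ← Real.rpow_mul_natCast hn0.le,
          ← Real.rpow_add_one hn0.ne']
        congr 1
        rw [hE, Nat.cast_sub hk, Nat.cast_one]
        field_simp
        ring
      have h3 : (b * y) ^ k = (b : ℝ) ^ (k - 1) * n := by
        rw [mul_pow, ← hbyk]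
        have h4 : (b : ℝ) ^ k = (b : ℝ) ^ (k - 1) * b := by
          rw [← pow_succ]
          congr 1
          omega
        rw [h4]
        ring
      rw [mul_pow, h2, h3]
      have h5 : η ^ k ≤ η ^ (k - 1) := pow_le_pow_of_le_one hη0.le hη1 (by omega)
      calc η ^ k * (((n : ℝ) ^ (c - 1)) ^ (k - 1) * n)
          ≤ η ^ (k - 1) * (((n : ℝ) ^ (c - 1)) ^ (k - 1) * n) :=
            mul_le_mul_of_nonneg_right h5 (by positivity)
        _ = (η * (n : ℝ) ^ (c - 1)) ^ (k - 1) * n := by rw [mul_pow]; ring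
        _ ≤ (b : ℝ) ^ (k - 1) * n :=
            mul_le_mul_of_nonneg_right (pow_le_pow_left₀ (by positivity) hbl _) hn0.le
    exact le_of_pow_le_pow_left₀ (by omega) (by positivity) h1
  obtain ⟨m', hm'⟩ : ∃ m' : ℕ, m' = ⌊y / 320⌋₊ := ⟨_, rfl⟩
  have hm1 : (m' : ℝ) ≤ y / 320 := by rw [hm']; exact Nat.floor_le (by positivity)
  have hm2 : y / 320 < m' + 1 := by rw [hm']; exact Nat.lt_floor_add_one _
  have hm3 : (2 : ℝ) < m' := by linarith
  have hm4 : 2 ≤ m' := by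
    have : (2 : ℕ) < m' := by exact_mod_cast hm3
    omega
  have hm5 : y ≤ 640 * m' := by linarith
  obtain ⟨ha2, hlog1⟩ := log_bound hn3
  have hsize : b * (320 * m') ^ k ≤ n := by
    have : (b : ℝ) * ((320 * m' : ℕ) : ℝ) ^ k ≤ n := by
      rw [← hbyk]
      refine mul_le_mul_of_nonneg_left (pow_le_pow_left₀ (by positivity) ?_ _) hb0.le
      push_cast
      linarith
    exact_mod_cast this
  refine ⟨b, m', hb1, hm4, hsize, hbT, ?_, ?_⟩
  · rw [← hE]
    refine exp_bound ?_ ?_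
    · calc 2 ≤ m' := hm4
        _ = m' * 1 := (mul_one _).symm
        _ ≤ m' * b := Nat.mul_le_mul_left _ hb1
    · push_cast
      have h1 : η / C * (n : ℝ) ^ E = (η * (n : ℝ) ^ E) / C := by ring
      rw [h1, div_le_div_iff₀ hCpos (by norm_num)]
      have h2 : (b : ℝ) * y ≤ b * (640 * m') := mul_le_mul_of_nonneg_left hm5 hb0.le
      have h3 : (0 : ℝ) ≤ m' * b := by positivity
      nlinarith
  · intro s t hst
    rw [hE1] at hst
    obtain ⟨a, ha⟩ : ∃ a : ℕ, a = Nat.log 2 (n + 2) + 1 := ⟨_, rfl⟩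
    have ha1 : n + 2 ≤ 2 ^ a := by
      rw [ha]
      exact (Nat.lt_pow_succ_log_self (by norm_num) _).le
    rw [← ha] at ha2
    have hs0 : (0 : ℝ) ≤ s := Nat.cast_nonneg _
    have ht0 : (0 : ℝ) ≤ t := Nat.cast_nonneg _
    have hnE : (n : ℝ) ^ (1 + E) ≤ (n : ℝ) ^ 2 := by
      rw [← Real.rpow_two]
      exact Real.rpow_le_rpow_of_exponent_le (by linarith) hE2
    have hpos : 0 ≤ (n : ℝ) ^ (1 + E) := Real.rpow_nonneg hn0.le _
    have hδ1 : η / C ≤ 1 := by
      rw [div_le_one hCpos]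
      linarith
    have ht : t + 1 ≤ (n + 2) ^ 2 := by
      have h1 : ((n : ℝ) + t) * 1 ≤ ((n : ℝ) + t) * (s + Real.log n) :=
        mul_le_mul_of_nonneg_left (by linarith) (by positivity)
      have h2 : η / C * (n : ℝ) ^ (1 + E) ≤ (n : ℝ) ^ 2 := by
        calc η / C * (n : ℝ) ^ (1 + E) ≤ 1 * (n : ℝ) ^ (1 + E) :=
              mul_le_mul_of_nonneg_right hδ1 hpos
          _ ≤ _ := by rw [one_mul]; exact hnE
      have h3 : (t : ℝ) + 1 ≤ ((n : ℝ) + 2) ^ 2 := by nlinarith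
      exact_mod_cast h3
    refine ⟨2 * (s + (k + 3) * a) + 2, nat_one ha1 ht hnk rfl,
      nat_two hb1 (by omega) hsize ?_⟩
    have h1 : ((2 * (s + (k + 3) * a) + 2 : ℕ) : ℝ) ≤ (8 * k + 40) * (s + Real.log n) := by
      push_cast
      nlinarith
    have h2 : (((n + t) * (2 * (s + (k + 3) * a) + 2) : ℕ) : ℝ) ≤
        (b : ℝ) ^ 2 * (m' : ℝ) ^ (k + 1) := by
      push_cast
      push_cast at h1
      have h5 : (n : ℝ) ^ (1 + E) = n * (n : ℝ) ^ E := by
        rw [Real.rpow_add hn0, Real.rpow_one]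
      calc ((n : ℝ) + t) * (2 * (s + (k + 3) * a) + 2) ≤
            ((n : ℝ) + t) * ((8 * k + 40) * (s + Real.log n)) :=
            mul_le_mul_of_nonneg_left h1 (by positivity)
        _ = (8 * k + 40) * (((n : ℝ) + t) * (s + Real.log n)) := by ring
        _ ≤ (8 * k + 40) * (η / C * (n : ℝ) ^ (1 + E)) :=
            mul_le_mul_of_nonneg_left hst (by positivity)
        _ = n * (η * (n : ℝ) ^ E) / 640 ^ (k + 1) := by
            rw [h5, hC]
            field_simp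
        _ ≤ n * (b * y) / 640 ^ (k + 1) := by
            refine div_le_div_of_nonneg_right ?_ (by positivity)
            exact mul_le_mul_of_nonneg_left hby hn0.le
        _ = (b : ℝ) ^ 2 * (y ^ (k + 1) / 640 ^ (k + 1)) := by
            rw [← hbyk, pow_succ]
            ring
        _ ≤ (b : ℝ) ^ 2 * (m' : ℝ) ^ (k + 1) := by
            refine mul_le_mul_of_nonneg_left ?_ (by positivity)
            rw [div_le_iff₀ (by positivity), ← mul_pow]
            refine pow_le_pow_left₀ hypos.le ?_ _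
            linarith
    exact_mod_cast h2

end Pool.Agent.TGC
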