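import Pool.Agent.TGC.PRB
import Pool.Agent.TGC.NOT
import Pool.Agent.Lib_helper16.Det.Fin

/-!
# Probabilistic multihead automata: the exponent 1, the worst case
-/

set_option autoImplicit false

namespace Pool.Agent.TGC

open Pool.Agent.Heads Pool.Agent.Det Filter Asymptotics

namespace PR1_aux

attribute [local instance] Classical.propDecidable

variable {k : ℕ} {Q : Type}

/-- The same machine. -/
def old (M : Pool.Agent.TGC.LM Lt k Q) : Pool.Agent.Det.LM k Q := ⟨M.nx, M.q0, M.acc⟩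

lemma old_cf (M : Pool.Agent.TGC.LM Lt k Q) (w : List Lt) (i : ℕ) :
    (old M).cf w i = M.cf w i := by
  induction i with
  | zero => rfl
  | succ i ih =>
    unfold Pool.Agent.Det.LM.cf Pool.Agent.TGC.LM.cf
    rw [ih]
    rfl

lemma old_acc (M : Pool.Agent.TGC.LM Lt k Q) (w : List Lt) (t : ℕ) :
    (old M).AccIn w t ↔ M.AccIn w t := by
  unfold Pool.Agent.Det.LM.AccIn Pool.Agent.TGC.LM.AccIn
  simp only [old_cf]
  rfl

end PR1_aux

open PR1_aux

/-- The case `c = 1`. -/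
theorem avgM_one : AvgM Pool.Agent.Det.Lang 1 := by
  classical
  intro k hk
  obtain ⟨c, hc, -, h⟩ := Pool.Agent.Det.params k hk
  refine ⟨c, hc, ?_⟩
  have e1 : (1 : ℝ) + (2 - 1) / (k : ℝ) = 1 + 1 / (k : ℝ) := by norm_num
  have e2 : (1 : ℝ) - 1 + (2 - 1) / (k : ℝ) = 1 / (k : ℝ) := by norm_num
  rw [e1, e2]
  filter_upwards [h] with n hn
  obtain ⟨m', hm, hmn, hexp, hpar⟩ := hn
  have hmn' : (5 * (64 * m')) ^ k ≤ n := by
    rw [show 5 * (64 * m') = 320 * m' by ring]; exact hmn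
  have hinj := wd_inj (64 * m') k n (by omega) hmn'
  refine ⟨Finset.univ.image (Pool.Agent.Det.wd (64 * m') k n), ?_, ?_, ?_⟩
  · refine Finset.Nonempty.image ?_ _
    have := AVE_aux.ne_Wt (64 * m') k Unit
    exact Finset.univ_nonempty
  · intro w hw
    rw [Finset.mem_image] at hw
    obtain ⟨W, -, rfl⟩ := hw
    exact length_wd _ _ _ _
  · intro Q _ M s t hcard hst
    obtain ⟨L, hL1, hL2⟩ := hpar s t hst
    have hb := agree_bound (k := k) (m := 64 * m') (m' := m') (n := n) (t := t) (L := L) rfl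
      (by omega) hmn' (old M) (by rw [card_Ec]; exact hL1 _ hcard) hL2
    have e1 : {w | w ∈ Finset.univ.image (Pool.Agent.Det.wd (64 * m') k n) ∧
          (w ∈ Lang ↔ M.AccIn w t)} =
        ((Finset.univ.filter fun W : Wt (64 * m') k Unit =>
          (Pool.Agent.Det.wd (64 * m') k n W ∈ Lang ↔
          (old M).AccIn (Pool.Agent.Det.wd (64 * m') k n W) t)).image
            (Pool.Agent.Det.wd (64 * m') k n) : Set (List Lt)) := by
      ext w
      simp only [Finset.mem_image, Finset.mem_univ, true_and, Set.mem_ofPred_eq,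
        Finset.coe_image, Finset.coe_filter, Set.mem_image]
      constructor
      · rintro ⟨⟨W, rfl⟩, h1⟩
        exact ⟨W, by rw [old_acc]; exact h1, rfl⟩
      · rintro ⟨W, h1, rfl⟩
        exact ⟨⟨W, rfl⟩, by rw [old_acc] at h1; exact h1⟩
    rw [e1, Set.ncard_coe_finset, Finset.card_image_of_injective _ hinj,
      Finset.card_image_of_injective _ hinj, Finset.card_univ]
    refine hb.trans ?_
    refine mul_le_mul_of_nonneg_right ?_ (Nat.cast_nonneg _)
    linarith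

/-- From the average to the worst case. -/
theorem wstP_of_avgP {α : Type} {L : Set (List α)} {e : ℝ} (he1 : 1 ≤ e) (he2 : e < 2)
    (hAvg : AvgP L e) : WstP L e := by
  intro k hk M
  obtain ⟨c, hc, h⟩ := hAvg k hk
  obtain ⟨s, hs⟩ : ∃ s, Nat.card M.Q ≤ 2 ^ s := ⟨Nat.card M.Q, Nat.lt_two_pow_self.le⟩
  have hk0 : (0 : ℝ) < k := by exact_mod_cast hk
  have hE : 0 < e - 1 + (2 - e) / (k : ℝ) := by
    have : 0 < (2 - e) / (k : ℝ) := div_pos (by linarith) hk0
    linarith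
  have hEE : e + (2 - e) / (k : ℝ) = 1 + (e - 1 + (2 - e) / (k : ℝ)) := by ring
  refine ⟨c / 4, by positivity, ?_⟩
  have hlog : Tendsto (fun n : ℕ => Real.log n) atTop atTop :=
    Real.tendsto_log_atTop.comp tendsto_natCast_atTop_atTop
  filter_upwards [h, NOT_aux.log_le s (y := e - 1 + (2 - e) / (k : ℝ)) hE (half_pos hc),
    hlog.eventually_ge_atTop (max s 1), eventually_gt_atTop 0] with n hn h1 h2 h4
  obtain ⟨H, hne, hlen, hH⟩ := hn
  have h2s : (s : ℝ) ≤ Real.log n := (le_max_left _ _).trans h2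
  have h21 : (1 : ℝ) ≤ Real.log n := (le_max_right _ _).trans h2
  have hn0 : (0 : ℝ) < n := by exact_mod_cast h4
  intro t ht
  by_contra hcon
  have ht1 : (t : ℝ) ≤ c / 4 * (n : ℝ) ^ (e + (2 - e) / (k : ℝ)) / Real.log n :=
    (not_le.1 hcon).le
  have hs0 : (0 : ℝ) ≤ s := Nat.cast_nonneg _
  have hbud : ((n : ℝ) + t) * (s + Real.log n) ≤ c * (n : ℝ) ^ (e + (2 - e) / (k : ℝ)) := by
    have e1 : (n : ℝ) * (s + Real.log n) ≤ c / 2 * (n : ℝ) ^ (e + (2 - e) / (k : ℝ)) := by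
      rw [hEE, Real.rpow_add hn0, Real.rpow_one]
      calc (n : ℝ) * (s + Real.log n) ≤ n * (c / 2 * (n : ℝ) ^ (e - 1 + (2 - e) / (k : ℝ))) :=
            mul_le_mul_of_nonneg_left h1 hn0.le
        _ = _ := by ring
    have e2 : (t : ℝ) * (s + Real.log n) ≤ c / 2 * (n : ℝ) ^ (e + (2 - e) / (k : ℝ)) := by
      calc (t : ℝ) * (s + Real.log n) ≤ t * (2 * Real.log n) :=
            mul_le_mul_of_nonneg_left (by linarith) (Nat.cast_nonneg _)
        _ ≤ (c / 4 * (n : ℝ) ^ (e + (2 - e) / (k : ℝ)) / Real.log n) * (2 * Real.log n) :=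
            mul_le_mul_of_nonneg_right ht1 (by linarith)
        _ = _ := by
            field_simp
            ring
    calc ((n : ℝ) + t) * (s + Real.log n) = n * (s + Real.log n) + t * (s + Real.log n) := by
          ring
      _ ≤ _ := by linarith
  have hfin := hH M s t hs hbud
  have hHpos : (0 : ℝ) < H.card := by exact_mod_cast Finset.card_pos.2 hne
  have hexp : Real.exp (-(c * (n : ℝ) ^ (e - 1 + (2 - e) / (k : ℝ)))) ≤
      Real.exp (-(c / 4 * (n : ℝ) ^ (e - 1 + (2 - e) / (k : ℝ)))) := by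
    apply Real.exp_le_exp.2
    have : 0 ≤ (n : ℝ) ^ (e - 1 + (2 - e) / (k : ℝ)) := by positivity
    nlinarith
  have hlt : ∑ w ∈ H, (1 / 2 + Real.exp (-(c / 4 * (n : ℝ) ^ (e - 1 + (2 - e) / (k : ℝ))))) <
      ∑ w ∈ H, M.right L w t :=
    Finset.sum_lt_sum_of_nonempty hne fun w hw => ht w (hlen w hw)
  rw [Finset.sum_const, nsmul_eq_mul] at hlt
  nlinarith

/-- The separation. -/
theorem notP_of_wstP {α : Type} {L : Set (List α)} {c : ℝ} (hc1 : 1 ≤ c) (hc2 : c < 2)
    (hW : WstP L c) (f : ℕ → ℝ)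
    (hf : ∀ ε : ℝ, 0 < ε → f =O[atTop] fun n : ℕ => (n : ℝ) ^ (c + ε)) : ¬ PFATime f L := by
  rintro ⟨k, hk, M, ht⟩
  have hk0 : (0 : ℝ) < k := by exact_mod_cast hk
  obtain ⟨δ, hδ, h⟩ := hW k hk M
  set ε : ℝ := (2 - c) / (2 * k) with hε
  have hε0 : 0 < ε := by
    have : 0 < 2 - c := by linarith
    positivity
  obtain ⟨K, hK, hfK⟩ := (hf ε hε0).exists_pos
  rw [IsBigOWith] at hfK
  have hE : 0 < c - 1 + (2 - c) / (k : ℝ) := by
    have : 0 < (2 - c) / (k : ℝ) := div_pos (by linarith) hk0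
    linarith
  have hlog := NOT_aux.log_le 0 (y := ε) hε0 (show (0 : ℝ) < δ / (2 * K) by positivity)
  have hlog1 : Tendsto (fun n : ℕ => Real.log n) atTop atTop :=
    Real.tendsto_log_atTop.comp tendsto_natCast_atTop_atTop
  have hy : Tendsto (fun n : ℕ => (n : ℝ) ^ (c - 1 + (2 - c) / (k : ℝ))) atTop atTop :=
    (tendsto_rpow_atTop hE).comp tendsto_natCast_atTop_atTop
  obtain ⟨n, hn, hfn, hl, hl1, hn0, hn2⟩ := (h.and (hfK.and (hlog.and
    ((hlog1.eventually_ge_atTop 1).and ((eventually_gt_atTop 0).and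
    (hy.eventually_ge_atTop (2 / δ))))))).exists
  have hexp : Real.exp (-(δ * (n : ℝ) ^ (c - 1 + (2 - c) / (k : ℝ)))) < 1 / 6 := by
    have h5 : 2 ≤ δ * (n : ℝ) ^ (c - 1 + (2 - c) / (k : ℝ)) := by
      rw [div_le_iff₀ hδ] at hn2
      linarith
    have h6 : Real.exp (-(δ * (n : ℝ) ^ (c - 1 + (2 - c) / (k : ℝ)))) ≤ Real.exp (-2) :=
      Real.exp_le_exp.2 (by linarith)
    have h7 : Real.exp (-2) < 1 / 6 := by
      rw [Real.exp_neg, one_div]
      refine inv_strictAnti₀ (by norm_num) ?_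
      have h8 := Real.exp_one_gt_d9
      have h9 : Real.exp 2 = Real.exp 1 * Real.exp 1 := by
        rw [← Real.exp_add]; norm_num
      rw [h9]
      nlinarith
    linarith
  have h1 := hn ⌊f n⌋₊ (by
    intro w hw
    unfold PFA.right
    by_cases hwL : w ∈ L
    · rw [if_pos hwL]
      have := (ht w).1 hwL
      rw [hw] at this
      linarith
    · rw [if_neg hwL]
      have := (ht w).2 hwL
      rw [hw] at this
      linarith)
  have hn0' : (0 : ℝ) < n := by exact_mod_cast hn0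
  have h2 : f n ≤ K * (n : ℝ) ^ (c + ε) := by
    have := (le_abs_self _).trans hfn
    rwa [Real.norm_eq_abs, abs_of_nonneg (by positivity)] at this
  have hlpos : 0 < Real.log n := by linarith
  have h2' : ((⌊f n⌋₊ : ℕ) : ℝ) ≤ K * (n : ℝ) ^ (c + ε) := by
    rcases le_or_gt 0 (f n) with h0 | h0
    · exact (Nat.floor_le h0).trans h2
    · rw [Nat.floor_of_nonpos h0.le]
      push_cast
      positivity
  have h3 : δ * (n : ℝ) ^ (c + (2 - c) / (k : ℝ)) / Real.log n ≤ K * (n : ℝ) ^ (c + ε) :=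
    h1.trans h2'
  rw [div_le_iff₀ hlpos] at h3
  have e1 : (n : ℝ) ^ (c + (2 - c) / (k : ℝ)) = (n : ℝ) ^ (c + ε) * (n : ℝ) ^ ε := by
    rw [← Real.rpow_add hn0']
    congr 1
    rw [hε]
    field_simp
    ring
  rw [e1] at h3
  have hA : (0 : ℝ) < (n : ℝ) ^ (c + ε) := by positivity
  have hB : (0 : ℝ) < (n : ℝ) ^ ε := by positivity
  have h4 : δ * (n : ℝ) ^ ε ≤ K * Real.log n := by
    refine le_of_mul_le_mul_left ?_ hA
    nlinarith
  have h5 : K * Real.log n ≤ δ / 2 * (n : ℝ) ^ ε := by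
    rw [zero_add] at hl
    calc K * Real.log n ≤ K * (δ / (2 * K) * (n : ℝ) ^ ε) :=
          mul_le_mul_of_nonneg_left hl hK.le
      _ = _ := by field_simp
  have h6 : 0 < δ * (n : ℝ) ^ ε := by positivity
  linarith

end Pool.Agent.TGC
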