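import Pool.Agent.TGC.St

/-!
# Time gaps for all exponents below 2: the automaton on the special words
-/

set_option autoImplicit false

namespace Pool.Agent.TGC

open Pool.Agent.Heads Pool.Agent.Det

namespace SEM_aux

/-- Configurations. -/
abbrev Cg : Type := Cfg Ph (Fin 4 → ℕ) Bool

lemma step_iff (w : List Lm) (c c' : Cg) : colPDA.Step w c c' ↔ stp w c = some c' := by
  unfold stp
  rw [Option.map_eq_some_iff]
  constructor
  · rintro ⟨t, ht, rfl⟩
    exact ⟨t, ht, rfl⟩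
  · rintro ⟨t, ht, rfl⟩
    exact ⟨t, ht, rfl⟩

lemma rn_snoc {w : List Lm} {t : ℕ} : ∀ {c c' : Cg},
    Rn w (t + 1) c c' ↔ ∃ c1, Rn w t c c1 ∧ stp w c1 = some c' := by
  induction t with
  | zero =>
    intro c c'
    constructor
    · rintro ⟨c1, h1, h2⟩
      have h : c1 = c' := h2
      rw [← h]
      exact ⟨c, rfl, h1⟩
    · rintro ⟨c1, h1, h2⟩
      have h : c = c1 := h1
      rw [h]
      exact ⟨c', h2, rfl⟩
  | succ t ih =>
    intro c c'
    constructor
    · rintro ⟨c1, h1, h2⟩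
      obtain ⟨c2, h3, h4⟩ := ih.1 h2
      exact ⟨c2, ⟨c1, h1, h3⟩, h4⟩
    · rintro ⟨c1, ⟨c2, h1, h2⟩, h3⟩
      exact ⟨c2, h1, ih.2 ⟨c1, h2, h3⟩⟩

lemma rn_trans {w : List Lm} {s : ℕ} : ∀ {t : ℕ} {c c1 c2 : Cg},
    Rn w s c c1 → Rn w t c1 c2 → Rn w (s + t) c c2 := by
  intro t
  induction t with
  | zero =>
    intro c c1 c2 h1 h2
    have h : c1 = c2 := h2
    rw [← h]
    exact h1
  | succ t ih =>
    intro c c1 c2 h1 h2
    obtain ⟨c3, h3, h4⟩ := rn_snoc.1 h2
    exact rn_snoc.2 ⟨c3, ih h1 h3, h4⟩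

lemma rn_split {w : List Lm} {s : ℕ} : ∀ {t : ℕ} {c c2 : Cg},
    Rn w (s + t) c c2 → ∃ c1, Rn w s c c1 ∧ Rn w t c1 c2 := by
  intro t
  induction t with
  | zero =>
    intro c c2 h
    exact ⟨c2, h, rfl⟩
  | succ t ih =>
    intro c c2 h
    obtain ⟨c3, h3, h4⟩ := rn_snoc.1 (show Rn w ((s + t) + 1) c c2 from h)
    obtain ⟨c1, h5, h6⟩ := ih h3
    exact ⟨c1, h5, rn_snoc.2 ⟨c3, h6, h4⟩⟩

lemma rn_det {w : List Lm} {t : ℕ} : ∀ {c c1 c2 : Cg}, Rn w t c c1 → Rn w t c c2 → c1 = c2 := by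
  induction t with
  | zero =>
    intro c c1 c2 h1 h2
    have h3 : c = c1 := h1
    have h4 : c = c2 := h2
    rw [← h3, ← h4]
  | succ t ih =>
    intro c c1 c2 h1 h2
    obtain ⟨d1, h3, h4⟩ := h1
    obtain ⟨d2, h5, h6⟩ := h2
    rw [h3] at h5
    obtain rfl := Option.some.inj h5
    exact ih h4 h6

lemma reach_zero {α : Type} {k : ℕ} (M : PDA α k) (w : List α) (c : Cfg M.Q (Fin k → ℕ) M.Γ)
    (h : M.Reach w 0 c) : M.init = c := by
  cases h
  rfl

lemma reach_succ {α : Type} {k : ℕ} (M : PDA α k) (w : List α) (t : ℕ)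
    (c : Cfg M.Q (Fin k → ℕ) M.Γ) (h : M.Reach w (t + 1) c) :
    ∃ c1, M.Reach w t c1 ∧ M.Step w c1 c := by
  cases h with
  | succ h1 h2 => exact ⟨_, h1, h2⟩

lemma reach_iff (w : List Lm) (t : ℕ) : ∀ c : Cg, colPDA.Reach w t c ↔
    Rn w t (⟨Ph.ini, fun _ => 0, []⟩ : Cg) c := by
  induction t with
  | zero =>
    intro c
    constructor
    · intro h
      exact reach_zero colPDA w c h
    · intro h
      have h' : (⟨Ph.ini, fun _ => 0, []⟩ : Cg) = c := h
      rw [← h']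
      exact PDA.Reach.zero
  | succ t ih =>
    intro c
    rw [rn_snoc]
    constructor
    · intro h
      obtain ⟨c1, h1, h2⟩ := reach_succ colPDA w t c h
      exact ⟨c1, (ih _).1 h1, (step_iff w _ _).1 h2⟩
    · rintro ⟨c1, h1, h2⟩
      exact PDA.Reach.succ ((ih _).2 h1) ((step_iff w _ _).2 h2)

lemma stp_acc (w : List Lm) (c : Cg) (h : c.state = Ph.acc) : stp w c = none := by
  unfold stp
  rw [h]
  rfl

/-- Nothing is reached from a stuck configuration. -/
lemma rn_stuck {w : List Lm} {t : ℕ} {c c' : Cg} (h : stp w c = none) (hr : Rn w t c c') :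
    t = 0 := by
  cases t with
  | zero => rfl
  | succ t =>
    obtain ⟨c1, h1, -⟩ := hr
    rw [h] at h1
    exact absurd h1 (by simp)

/-- If the computation is stuck in a state other than `acc`, then it does not accept. -/
lemma not_acc {w : List Lm} {t0 t : ℕ} {c0 c d : Cg} (h0 : Rn w t0 d c0) (hs : stp w c0 = none)
    (hn : c0.state ≠ Ph.acc) (h : Rn w t d c) : c.state ≠ Ph.acc := by
  intro hc
  rcases Nat.lt_or_ge t0 t with hlt | hge
  · obtain ⟨s, rfl⟩ : ∃ s, t = t0 + (s + 1) := ⟨t - t0 - 1, by omega⟩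
    obtain ⟨c1, h1, h2⟩ := rn_split h
    have h3 := rn_det h0 h1
    rw [← h3] at h2
    have := rn_stuck hs h2
    omega
  · obtain ⟨s, rfl⟩ : ∃ s, t0 = t + s := ⟨t0 - t, by omega⟩
    obtain ⟨c1, h1, h2⟩ := rn_split h0
    have h3 := rn_det h h1
    rw [← h3] at h2
    have h4 := rn_stuck (stp_acc w c hc) h2
    subst h4
    have h5 : c = c0 := h2
    rw [← h5] at hn
    exact hn hc

/-! ### The steps -/

lemma tape_zero (w : List Lm) : tape w 0 = Sym.left := rfl

lemma tape_letter {w : List Lm} {p : ℕ} (h : p < w.length) :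
    ∃ a, tape w (p + 1) = Sym.letter a := by
  refine ⟨w[p], ?_⟩
  simp only [tape, List.getElem?_eq_getElem h]

lemma tape_right (w : List Lm) : tape w (w.length + 1) = Sym.right := by
  have h : w[w.length]? = none := List.getElem?_eq_none le_rfl
  simp only [tape, h]

lemma pq_move (N : ℕ) (r : Bool) (x i j y : ℕ) (d0 : Dir) :
    (fun a => move N (pq r x i j y a) (dv d0 Dir.S Dir.S Dir.S a)) =
      pq r (move N x d0) i j y := by
  funext a
  cases r <;> fin_cases a <;> rfl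

lemma stp_eq {w : List Lm} {c : Cg} {u : Ph × (Fin 4 → Dir) × Op Bool}
    (h : dl c.state (fun i => tape w (c.pos i)) c.stack.head? = some u) :
    stp w c = some ⟨u.1, fun i => move (w.length + 1) (c.pos i) (u.2.1 i),
      u.2.2.apply c.stack⟩ := by
  unfold stp
  rw [h]
  rfl

lemma pq_zero (r : Bool) (x i j y : ℕ) : pq r x i j y 0 = x := by cases r <;> rfl

lemma pq_three (r : Bool) (x i j y : ℕ) : pq r x i j y 3 = y := by cases r <;> rfl

/-- The first step. -/
lemma step_ini (w : List Lm) : stp w (⟨Ph.ini, fun _ => 0, []⟩ : Cg) =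
    some ⟨Ph.fwd false false true false, pq false 1 0 0 1, []⟩ := by
  rw [stp_eq (u := (Ph.fwd false false true false, dv Dir.R Dir.S Dir.S Dir.R, Op.none)) rfl]
  congr 2
  funext a
  fin_cases a
  · show min (0 + 1) (w.length + 1) = 1
    omega
  · rfl
  · rfl
  · show min (0 + 1) (w.length + 1) = 1
    omega

/-- The step on the right endmarker. -/
lemma step_end (w : List Lm) (r p v : Bool) (i j y : ℕ) :
    stp w (⟨Ph.fwd r false p v, pq r (w.length + 1) i j y, []⟩ : Cg) =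
      some ⟨Ph.bk r v, pq r w.length i j y, []⟩ := by
  have h : dl (Ph.fwd r false p v) (fun a => tape w (pq r (w.length + 1) i j y a)) none =
      some (Ph.bk r v, dv Dir.L Dir.S Dir.S Dir.S, Op.none) := by
    simp only [dl, pq_zero, tape_right]
    rfl
  rw [stp_eq (u := (Ph.bk r v, dv Dir.L Dir.S Dir.S Dir.S, Op.none)) h]
  show some (⟨Ph.bk r v, fun a => move (w.length + 1) (pq r (w.length + 1) i j y a)
    (dv Dir.L Dir.S Dir.S Dir.S a), []⟩ : Cg) = _
  rw [pq_move]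
  rfl

/-- A step of the return. -/
lemma step_bk (w : List Lm) (r v : Bool) (x i j y : ℕ) (hx : x < w.length) :
    stp w (⟨Ph.bk r v, pq r (x + 1) i j y, []⟩ : Cg) = some ⟨Ph.bk r v, pq r x i j y, []⟩ := by
  obtain ⟨a, ha⟩ := tape_letter hx
  have h : dl (Ph.bk r v) (fun a => tape w (pq r (x + 1) i j y a)) none =
      some (Ph.bk r v, dv Dir.L Dir.S Dir.S Dir.S, Op.none) := by
    simp only [dl, pq_zero, ha]
  rw [stp_eq (u := (Ph.bk r v, dv Dir.L Dir.S Dir.S Dir.S, Op.none)) h]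
  show some (⟨Ph.bk r v, fun b => move (w.length + 1) (pq r (x + 1) i j y b)
    (dv Dir.L Dir.S Dir.S Dir.S b), []⟩ : Cg) = _
  rw [pq_move]
  rfl

/-- The return. -/
lemma rn_bk (w : List Lm) (r v : Bool) (i j y : ℕ) : ∀ x ≤ w.length,
    Rn w x (⟨Ph.bk r v, pq r x i j y, []⟩ : Cg) ⟨Ph.bk r v, pq r 0 i j y, []⟩ := by
  intro x
  induction x with
  | zero => intro _; rfl
  | succ x ih =>
    intro hx
    exact ⟨_, step_bk w r v x i j y (by omega), ih (by omega)⟩

/-- The step on the left endmarker. -/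
lemma step_left (w : List Lm) (r v : Bool) (i y : ℕ) (hi : i ≤ w.length) (hy : y ≤ w.length) :
    stp w (⟨Ph.bk r v, pq r 0 i 0 y, []⟩ : Cg) =
      some ⟨Ph.chk r v, pq r 0 (i + 1) 0 (y + 1), []⟩ := by
  have h : dl (Ph.bk r v) (fun a => tape w (pq r 0 i 0 y a)) none =
      some (Ph.chk r v, (if r then dv Dir.S Dir.S Dir.R Dir.R
        else dv Dir.S Dir.R Dir.S Dir.R), Op.none) := by
    simp only [dl, pq_zero, tape_zero]
  rw [stp_eq (u := (Ph.chk r v, (if r then dv Dir.S Dir.S Dir.R Dir.R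
        else dv Dir.S Dir.R Dir.S Dir.R), Op.none)) h]
  show some (⟨Ph.chk r v, fun b => move (w.length + 1) (pq r 0 i 0 y b)
    ((if r then dv Dir.S Dir.S Dir.R Dir.R else dv Dir.S Dir.R Dir.S Dir.R) b), []⟩ : Cg) = _
  congr 2
  have h1 : move (w.length + 1) i Dir.R = i + 1 := by simp only [move]; omega
  have h2 : move (w.length + 1) y Dir.R = y + 1 := by simp only [move]; omega
  cases r
  · funext a
    fin_cases a
    · rfl
    · exact h1
    · rfl
    · exact h2
  · funext a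
    fin_cases a
    · rfl
    · rfl
    · exact h1
    · exact h2

/-- The look at the pointer, inside. -/
lemma step_chk (w : List Lm) (r v : Bool) (i y : ℕ) (a : Lt)
    (ha : tape w y = Sym.letter (a, false)) :
    stp w (⟨Ph.chk r v, pq r 0 i 0 y, []⟩ : Cg) =
      some ⟨Ph.fwd r false true v, pq r 1 i 0 y, []⟩ := by
  have h : dl (Ph.chk r v) (fun a => tape w (pq r 0 i 0 y a)) none =
      some (Ph.fwd r false true v, dv Dir.R Dir.S Dir.S Dir.S, Op.none) := by
    simp only [dl, pq_three, ha]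
  rw [stp_eq (u := (Ph.fwd r false true v, dv Dir.R Dir.S Dir.S Dir.S, Op.none)) h]
  show some (⟨Ph.fwd r false true v, fun b => move (w.length + 1) (pq r 0 i 0 y b)
    (dv Dir.R Dir.S Dir.S Dir.S b), []⟩ : Cg) = _
  rw [pq_move]
  have h2 : move (w.length + 1) 0 Dir.R = 1 := by simp only [move]; omega
  rw [h2]

/-- The look at the pointer, at the end, accepting. -/
lemma step_chk_true (w : List Lm) (r : Bool) (i y : ℕ) (a : Lt)
    (ha : tape w y = Sym.letter (a, true)) :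
    ∃ c : Cg, stp w (⟨Ph.chk r true, pq r 0 i 0 y, []⟩ : Cg) = some c ∧ c.state = Ph.acc := by
  have h : dl (Ph.chk r true) (fun a => tape w (pq r 0 i 0 y a)) none =
      some (Ph.acc, dv Dir.S Dir.S Dir.S Dir.S, Op.none) := by
    simp only [dl, pq_three, ha]
    rfl
  exact ⟨_, stp_eq (u := (Ph.acc, dv Dir.S Dir.S Dir.S Dir.S, Op.none)) h, rfl⟩

/-- The look at the pointer, at the end, rejecting. -/
lemma step_chk_false (w : List Lm) (r : Bool) (i y : ℕ) (a : Lt)
    (ha : tape w y = Sym.letter (a, true)) :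
    stp w (⟨Ph.chk r false, pq r 0 i 0 y, []⟩ : Cg) = none := by
  have h : dl (Ph.chk r false) (fun a => tape w (pq r 0 i 0 y a)) none = none := by
    simp only [dl, pq_three, ha]
    rfl
  unfold stp
  show Option.map _ (dl (Ph.chk r false) (fun a => tape w (pq r 0 i 0 y a)) none) = none
  rw [h]
  rfl

end SEM_aux

open SEM_aux

lemma SEM_aux.wd_length (b m k n : ℕ) [NeZero b] (W : Wt m k (Fin b)) :
    (wd b m k n W).length = n := by
  unfold wd
  rw [List.length_map, List.length_range]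

lemma SEM_aux.tape_wd (b m k n : ℕ) [NeZero b] (W : Wt m k (Fin b)) (p : ℕ) (hp : p < n)
    (hp' : p < b * (5 * m) ^ k) : ∃ a, tape (wd b m k n W) (p + 1) =
      Sym.letter (a, decide (p % b = 0)) := by
  refine ⟨lt m k (Fin b) W (Fin.ofNat b p) (p / b), ?_⟩
  have h : (wd b m k n W)[p]? = some (wl b m k W p) := by
    unfold wd
    rw [List.getElem?_map, List.getElem?_range hp]
    rfl
  simp only [tape, h]
  unfold wl
  rw [if_pos hp']

/-- One column. -/
lemma SEM_aux.column (h : s_FWD) (b m k n : ℕ) [NeZero b] (W : Wt m k (Fin b)) (hm : 0 < m)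
    (hn : b * (5 * m) ^ k ≤ n) (hb : b ≤ n) (i : Fin b) (r v : Bool) :
    ∃ r' v', Rn (wd b m k n W) (2 * n + 2)
      ⟨Ph.fwd r false true v, pq r 1 i 0 (i + 1), []⟩
      ⟨Ph.chk r' v', pq r' 0 (i + 1) 0 (i + 2), []⟩ ∧ sb v' = sb v * sv m k (Fin b) W i := by
  obtain ⟨r', p', v', h1, h2⟩ := h b m k n W i r v (i + 1) hm hn
  refine ⟨r', v', ?_, h2⟩
  have hl := SEM_aux.wd_length b m k n W
  have h3 : Rn (wd b m k n W) 1 ⟨Ph.fwd r' false p' v', pq r' (n + 1) i 0 (i + 1), []⟩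
      ⟨Ph.bk r' v', pq r' n i 0 (i + 1), []⟩ := by
    refine ⟨_, ?_, rfl⟩
    have := step_end (wd b m k n W) r' p' v' i 0 (i + 1)
    rw [hl] at this
    exact this
  have h4 := rn_bk (wd b m k n W) r' v' i 0 (i + 1) n (by rw [hl])
  have h5 : Rn (wd b m k n W) 1 ⟨Ph.bk r' v', pq r' 0 i 0 (i + 1), []⟩
      ⟨Ph.chk r' v', pq r' 0 (i + 1) 0 (i + 2), []⟩ :=
    ⟨_, step_left (wd b m k n W) r' v' i (i + 1) (by rw [hl]; omega) (by rw [hl]; omega), rfl⟩
  have h6 := rn_trans (rn_trans (rn_trans h1 h3) h4) h5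
  rw [show n + 1 + n + 1 = 2 * n + 2 by ring] at h6
  exact h6

/-- The columns before `j`. -/
lemma SEM_aux.columns (h : s_FWD) (b m k n : ℕ) [NeZero b] (W : Wt m k (Fin b)) (hm : 0 < m)
    (hn : b * (5 * m) ^ k ≤ n) (hb : b ≤ n) (g : ℕ → ℝ)
    (hg : ∀ i : Fin b, g i = sv m k (Fin b) W i) (j : ℕ) (hj : j < b) :
    ∃ r v, Rn (wd b m k n W) (1 + j * (2 * n + 3)) (⟨Ph.ini, fun _ => 0, []⟩ : Cg)
      ⟨Ph.fwd r false true v, pq r 1 j 0 (j + 1), []⟩ ∧
      sb v = ∏ i ∈ Finset.range j, g i := by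
  induction j with
  | zero =>
    refine ⟨false, false, ?_, ?_⟩
    · rw [Nat.zero_mul]
      exact ⟨_, step_ini _, rfl⟩
    · rw [Finset.range_zero, Finset.prod_empty]
      rfl
  | succ j ih =>
    obtain ⟨r, v, h1, h2⟩ := ih (by omega)
    obtain ⟨r', v', h3, h4⟩ := SEM_aux.column h b m k n W hm hn hb ⟨j, by omega⟩ r v
    refine ⟨r', v', ?_, ?_⟩
    · have hpos : 0 < (5 * m) ^ k := by positivity
      have hlt : j + 1 < b * (5 * m) ^ k :=
        lt_of_lt_of_le hj (Nat.le_mul_of_pos_right b hpos)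
      obtain ⟨a, ha⟩ := SEM_aux.tape_wd b m k n W (j + 1) (by omega) hlt
      have hmod : decide ((j + 1) % b = 0) = false := by
        rw [decide_eq_false_iff_not, Nat.mod_eq_of_lt hj]
        omega
      rw [hmod] at ha
      have h5 : Rn (wd b m k n W) 1 ⟨Ph.chk r' v', pq r' 0 (j + 1) 0 (j + 2), []⟩
          ⟨Ph.fwd r' false true v', pq r' 1 (j + 1) 0 (j + 2), []⟩ :=
        ⟨_, step_chk (wd b m k n W) r' v' (j + 1) (j + 2) a ha, rfl⟩
      have h6 := rn_trans (rn_trans h1 h3) h5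
      rw [show 1 + j * (2 * n + 3) + (2 * n + 2) + 1 = 1 + (j + 1) * (2 * n + 3) by ring] at h6
      exact h6
    · rw [h4, h2, Finset.prod_range_succ, ← hg ⟨j, by omega⟩]

theorem t_SEM (h : s_FWD) : s_SEM := by
  intro b m k n T _ W hm hk hn hT
  have hb0 : 0 < b := Nat.pos_of_ne_zero (NeZero.ne b)
  have hpow : 2 ≤ (5 * m) ^ k := by
    calc 2 ≤ (5 * m) ^ 1 := by rw [pow_one]; omega
      _ ≤ (5 * m) ^ k := Nat.pow_le_pow_right (by omega) hk
  have hbn : b < b * (5 * m) ^ k := by nlinarith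
  have hb : b ≤ n := by omega
  let g : ℕ → ℝ := fun i => if h : i < b then sv m k (Fin b) W ⟨i, h⟩ else 1
  have hg : ∀ i : Fin b, g i = sv m k (Fin b) W i := fun i => dif_pos i.2
  obtain ⟨j, rfl⟩ : ∃ j, b = j + 1 := ⟨b - 1, by omega⟩
  obtain ⟨r, v, h1, h2⟩ := SEM_aux.columns h (j + 1) m k n W hm hn hb g hg j (by omega)
  obtain ⟨r', v', h3, h4⟩ := SEM_aux.column h (j + 1) m k n W hm hn hb ⟨j, by omega⟩ r v
  have hchi : sb v' = chi m k (Fin (j + 1)) Finset.univ W := by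
    rw [h4, h2, ← hg ⟨j, by omega⟩, ← Finset.prod_range_succ, Finset.prod_range]
    unfold chi
    exact Finset.prod_congr rfl fun i _ => hg i
  obtain ⟨a, ha⟩ := SEM_aux.tape_wd (j + 1) m k n W (j + 1) (by omega) hbn
  have hmod : decide ((j + 1) % (j + 1) = 0) = true := by
    rw [decide_eq_true_iff, Nat.mod_self]
  rw [hmod] at ha
  have h5 := rn_trans h1 h3
  rw [← hchi]
  cases v' with
  | true =>
    constructor
    · intro _
      rfl
    · intro _
      obtain ⟨c, h6, h7⟩ := step_chk_true (wd (j + 1) m k n W) r' (j + 1) (j + 2) a ha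
      have h8 : Rn (wd (j + 1) m k n W) 1 ⟨Ph.chk r' true, pq r' 0 (j + 1) 0 (j + 2), []⟩ c :=
        ⟨_, h6, rfl⟩
      refine ⟨_, ?_, c, (reach_iff _ _ _).2 (rn_trans h5 h8), h7⟩
      calc 1 + j * (2 * n + 3) + (2 * n + 2) + 1 = 1 + (j + 1) * (2 * n + 3) := by ring
        _ ≤ T := hT
  | false =>
    constructor
    · rintro ⟨t, -, c, h6, h7⟩
      have h8 := (reach_iff _ _ _).1 h6
      have h9 := step_chk_false (wd (j + 1) m k n W) r' (j + 1) (j + 2) a ha
      exact absurd h7 (not_acc h5 h9 (by simp) h8)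
    · intro h6
      exfalso
      unfold sb at h6
      norm_num at h6

end Pool.Agent.TGC
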