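import Pool.Agent.TGC.St

/-!
# From the average to the worst case (module WOR)
-/

set_option autoImplicit false

namespace Pool.Agent.TGC

open Pool.Agent.Heads Pool.Agent.Det Filter Topology

namespace WOR_aux

lemma log_div_rpow (s : ℝ) {y : ℝ} (hy : 0 < y) {d : ℝ} (hd : 0 < d) :
    ∀ᶠ n : ℕ in atTop, s + Real.log n ≤ d * (n : ℝ) ^ y := by
  have h1 := (isLittleO_log_rpow_atTop hy).comp_tendsto tendsto_natCast_atTop_atTop
  have h2 := h1.def (show (0 : ℝ) < d / 2 by positivity)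
  have h3 : Tendsto (fun n : ℕ => (n : ℝ) ^ y) atTop atTop :=
    (tendsto_rpow_atTop hy).comp tendsto_natCast_atTop_atTop
  filter_upwards [h2, h3.eventually_ge_atTop (2 * s / d)] with n h4 h5
  simp only [Function.comp_apply, Real.norm_eq_abs] at h4
  have h6 : (0 : ℝ) ≤ (n : ℝ) ^ y := by positivity
  rw [abs_of_nonneg h6] at h4
  have h7 := (le_abs_self _).trans h4
  rw [div_le_iff₀ hd] at h5
  nlinarith

lemma acc_mono {α : Type} {k : ℕ} {M : FA α k} {w : List α} {t t' : ℕ} (h : t ≤ t')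
    (hA : AcceptsIn M w t) : AcceptsIn M w t' := by
  obtain ⟨i, hi, c, h1, h2⟩ := hA
  exact ⟨i, hi.trans h, c, h1, h2⟩

lemma refl_trans {A : Type} {step : A → A → Prop} {a b : A} {t : ℕ}
    (h : ReachN step a t b) : Relation.ReflTransGen step a b := by
  induction h with
  | zero => exact Relation.ReflTransGen.refl
  | succ _ hs ih => exact ih.tail hs

lemma acc_mem {α : Type} {k : ℕ} {M : FA α k} {w : List α} {t : ℕ}
    (hA : AcceptsIn M w t) : w ∈ M.lang := by
  obtain ⟨i, -, c, h1, h2⟩ := hA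
  exact ⟨c, refl_trans h1, h2⟩

end WOR_aux

theorem t_WOR : s_WOR := by
  intro α L e he1 he2 hAvg k hk M hM hL
  obtain ⟨c, hc, h⟩ := hAvg k hk
  have := M.finQ
  obtain ⟨s, hs⟩ : ∃ s, Nat.card M.Q ≤ 2 ^ s := ⟨Nat.card M.Q, Nat.lt_two_pow_self.le⟩
  have hk0 : (0 : ℝ) < k := by exact_mod_cast hk
  have hE : 0 < e - 1 + (2 - e) / (k : ℝ) := by
    have : 0 < (2 - e) / (k : ℝ) := div_pos (by linarith) hk0
    linarith
  have hEE : e + (2 - e) / (k : ℝ) = 1 + (e - 1 + (2 - e) / (k : ℝ)) := by ring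
  refine ⟨c / 4, by positivity, ?_⟩
  have hlog : Tendsto (fun n : ℕ => Real.log n) atTop atTop :=
    Real.tendsto_log_atTop.comp tendsto_natCast_atTop_atTop
  have hy : Tendsto (fun n : ℕ => (n : ℝ) ^ (e - 1 + (2 - e) / (k : ℝ))) atTop atTop :=
    (tendsto_rpow_atTop hE).comp tendsto_natCast_atTop_atTop
  filter_upwards [h, WOR_aux.log_div_rpow s (y := e - 1 + (2 - e) / (k : ℝ)) hE (half_pos hc),
    hlog.eventually_ge_atTop (max s 1), hy.eventually_ge_atTop (2 / c),
    eventually_gt_atTop 0] with n hn h1 h2 h3 h4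
  obtain ⟨H, hne, hlen, hH⟩ := hn
  have h2s : (s : ℝ) ≤ Real.log n := (le_max_left _ _).trans h2
  have h21 : (1 : ℝ) ≤ Real.log n := (le_max_right _ _).trans h2
  have hn0 : (0 : ℝ) < n := by exact_mod_cast h4
  by_contra hcon
  push Not at hcon
  set t := ⌊c / 4 * (n : ℝ) ^ (e + (2 - e) / (k : ℝ)) / Real.log n⌋₊ with ht
  have ht1 : (t : ℝ) ≤ c / 4 * (n : ℝ) ^ (e + (2 - e) / (k : ℝ)) / Real.log n :=
    Nat.floor_le (by positivity)
  have hall : ∀ w ∈ H, (w ∈ L ↔ AcceptsIn M w t) := by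
    intro w hw
    constructor
    · intro hwL
      obtain ⟨t', ht', hlt⟩ := hcon w hwL (hlen w hw)
      refine WOR_aux.acc_mono ?_ ht'
      exact Nat.le_floor hlt.le
    · intro hA
      rw [← hL]
      exact WOR_aux.acc_mem hA
  have hs0 : (0 : ℝ) ≤ s := Nat.cast_nonneg _
  have hbud : ((n : ℝ) + t) * (s + Real.log n) ≤ c * (n : ℝ) ^ (e + (2 - e) / (k : ℝ)) := by
    have e1 : (n : ℝ) * (s + Real.log n) ≤ c / 2 * (n : ℝ) ^ (e + (2 - e) / (k : ℝ)) := by
      rw [hEE, Real.rpow_add hn0, Real.rpow_one]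
      calc (n : ℝ) * (s + Real.log n) ≤ n * (c / 2 * (n : ℝ) ^ (e - 1 + (2 - e) / (k : ℝ))) :=
            mul_le_mul_of_nonneg_left h1 hn0.le
        _ = _ := by ring
    have e2 : (t : ℝ) * (s + Real.log n) ≤ c / 2 * (n : ℝ) ^ (e + (2 - e) / (k : ℝ)) := by
      calc (t : ℝ) * (s + Real.log n) ≤ t * (2 * Real.log n) :=
            mul_le_mul_of_nonneg_left (by linarith) (Nat.cast_nonneg _)
        _ ≤ (c / 4 * (n : ℝ) ^ (e + (2 - e) / (k : ℝ)) / Real.log n) * (2 * Real.log n) :=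
            mul_le_mul_of_nonneg_right ht1 (by linarith)
        _ = _ := by
            field_simp
            ring
    calc ((n : ℝ) + t) * (s + Real.log n) = n * (s + Real.log n) + t * (s + Real.log n) := by
          ring
      _ ≤ _ := by linarith
  have hfin := hH M s t hM hs hbud
  have e3 : {w | w ∈ H ∧ (w ∈ L ↔ AcceptsIn M w t)} = (H : Set (List α)) := by
    ext w
    simp only [Set.mem_ofPred_eq, Finset.mem_coe]
    exact ⟨fun h => h.1, fun h => ⟨h, hall w h⟩⟩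
  rw [e3, Set.ncard_coe_finset] at hfin
  have hHpos : (0 : ℝ) < H.card := by exact_mod_cast Finset.card_pos.2 hne
  have hexp : Real.exp (-(c * (n : ℝ) ^ (e - 1 + (2 - e) / (k : ℝ)))) < 1 / 2 := by
    have h5 : 2 ≤ c * (n : ℝ) ^ (e - 1 + (2 - e) / (k : ℝ)) := by
      rw [div_le_iff₀ hc] at h3
      linarith
    have h6 : Real.exp (-(c * (n : ℝ) ^ (e - 1 + (2 - e) / (k : ℝ)))) ≤ Real.exp (-1) :=
      Real.exp_le_exp.2 (by linarith)
    have h7 : Real.exp (-1) < 1 / 2 := by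
      rw [Real.exp_neg, one_div]
      refine inv_strictAnti₀ (by norm_num) ?_
      have := Real.exp_one_gt_d9
      linarith
    linarith
  nlinarith

end Pool.Agent.TGC
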