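import Pool.Agent.TGC.Fin
import Pool.Agent.TGC.PR1
import Pool.Agent.TGC.GEO
import Pool.Agent.TGC.COR
import Pool.Agent.TGC.AGR
import Pool.Agent.TGC.PAR
import Pool.Agent.TGC.FWD
import Pool.Agent.TGC.SEM
import Pool.Agent.TGC.CLK
import Pool.Agent.TGC.WOR
import Pool.Agent.TGC.NOT

/-!
# Time gaps for all exponents below 2: deterministic and probabilistic automata
-/

set_option autoImplicit false

namespace Pool.Agent.TGC

open Pool.Agent.Heads Pool.Agent.Det Filter Asymptotics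

/-- The lower bounds on average, on the same words for deterministic and for probabilistic
automata. -/
def AvgB {α : Type} (L : Set (List α)) (c : ℝ) : Prop :=
  ∀ k : ℕ, 1 ≤ k → ∃ δ : ℝ, 0 < δ ∧ ∀ᶠ n : ℕ in atTop,
    ∃ H : Finset (List α), H.Nonempty ∧ (∀ w ∈ H, w.length = n) ∧
      ∀ s t : ℕ, ((n : ℝ) + t) * (s + Real.log n) ≤ δ * (n : ℝ) ^ (c + (2 - c) / k) →
        (∀ M : FA α k, M.Det → Nat.card M.Q ≤ 2 ^ s →
          ({w | w ∈ H ∧ (w ∈ L ↔ AcceptsIn M w t)}.ncard : ℝ) ≤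
            (1 / 2 + Real.exp (-(δ * (n : ℝ) ^ (c - 1 + (2 - c) / k)))) * H.card) ∧
        (∀ M : PFA α k, Nat.card M.Q ≤ 2 ^ s →
          ∑ w ∈ H, M.right L w t ≤
            (1 / 2 + Real.exp (-(δ * (n : ℝ) ^ (c - 1 + (2 - c) / k)))) * H.card)

/-- From machines with time dependent steps to both kinds of automata. -/
theorem avgB_of_avgM {α : Type} {L : Set (List α)} {c : ℝ} (h : AvgM L c) : AvgB L c := by
  intro k hk
  obtain ⟨δ, hδ, h⟩ := h k hk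
  refine ⟨δ, hδ, ?_⟩
  filter_upwards [h] with n hn
  obtain ⟨H, hne, hlen, hH⟩ := hn
  refine ⟨H, hne, hlen, ?_⟩
  intro s t hst
  refine ⟨?_, ?_⟩
  · intro M hM hQ
    have := M.finQ
    have hfin : Fintype M.Q := Fintype.ofFinite M.Q
    have h1 := hH M.Q (AVE_aux.ofFA M) s t (by rw [← Nat.card_eq_fintype_card]; exact hQ) hst
    have e1 : {w | w ∈ H ∧ (w ∈ L ↔ AcceptsIn M w t)} =
        {w | w ∈ H ∧ (w ∈ L ↔ (AVE_aux.ofFA M).AccIn w t)} := by
      ext w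
      show _ ∧ _ ↔ _ ∧ _
      rw [AVE_aux.ofFA_accIn hM]
    rw [e1]
    exact h1
  · intro M hQ
    have := M.finQ
    have hfin : Fintype M.Q := Fintype.ofFinite M.Q
    refine PRB_aux.derand M L H t _ fun r => ?_
    have h1 := hH M.Q (PRB_aux.toLM M r) s t (by rw [← Nat.card_eq_fintype_card]; exact hQ) hst
    have e1 : {w | w ∈ H ∧ (w ∈ L ↔ M.Acc w r)} =
        {w | w ∈ H ∧ (w ∈ L ↔ (PRB_aux.toLM M r).AccIn w t)} := by
      ext w
      show _ ∧ _ ↔ _ ∧ _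
      rw [PRB_aux.toLM_acc]
    rw [e1]
    exact h1

/-- All the lower bounds. -/
def Low {α : Type} (L : Set (List α)) (c : ℝ) : Prop :=
  Wst L c ∧
  (∀ f : ℕ → ℝ, (∀ ε : ℝ, 0 < ε → f =O[atTop] fun n : ℕ => (n : ℝ) ^ (c + ε)) →
    ¬ DFATime f L ∧ ¬ PFATime f L) ∧
  WstP L c ∧ AvgB L c

theorem low_of_avgM {α : Type} {L : Set (List α)} {c : ℝ} (h1 : 1 ≤ c) (h2 : c < 2)
    (h : AvgM L c) : Low L c := by
  have hA := avg_of_avgM h
  have hW := t_WOR _ _ c h1 h2 hA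
  have hP := wstP_of_avgP h1 h2 (avgP_of_avgM h)
  exact ⟨hW, fun f hf => ⟨t_NOT _ _ c h1 h2 hW f hf, notP_of_wstP h1 h2 hP f hf⟩, hP,
    avgB_of_avgM h⟩

/-- The theorem. -/
theorem mainP (c : ℚ) (h1 : 1 ≤ c) (h2 : c < 2) :
    ∃ (α : Type) (_ : Finite α) (L : Set (List α)),
    (∃ C : ℝ, DPDATime (fun n => C * ((n : ℝ) + 1) ^ (c : ℝ)) L) ∧
    (c = 1 → ∃ M : PDA α 1, M.Det ∧ M.lang = L ∧
      ∀ w t cf, M.Reach w t cf → cf.pos 0 = min t (w.length + 1) ∧ t ≤ w.length + 2) ∧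
    Low L c := by
  have h2' : (c : ℝ) < 2 := by exact_mod_cast h2
  have h1' : (1 : ℝ) ≤ c := by exact_mod_cast h1
  have hfin : Finite Pool.Agent.Det.Lt := by
    refine Finite.of_surjective (α := Bool ⊕ Bool ⊕ Bool)
      (fun x => match x with
        | Sum.inl b => Pool.Agent.Det.Lt.push b
        | Sum.inr (Sum.inl b) => Pool.Agent.Det.Lt.leaf b
        | Sum.inr (Sum.inr true) => Pool.Agent.Det.Lt.pop
        | Sum.inr (Sum.inr false) => Pool.Agent.Det.Lt.pad) ?_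
    intro a
    cases a with
    | push b => exact ⟨Sum.inl b, rfl⟩
    | pop => exact ⟨Sum.inr (Sum.inr true), rfl⟩
    | leaf b => exact ⟨Sum.inr (Sum.inl b), rfl⟩
    | pad => exact ⟨Sum.inr (Sum.inr false), rfl⟩
  rcases eq_or_lt_of_le h1 with h | h
  · subst h
    have e1 : ((1 : ℚ) : ℝ) = 1 := by norm_num
    refine ⟨Pool.Agent.Det.Lt, hfin, Pool.Agent.Det.Lang, ?_, ?_, ?_⟩
    · refine ⟨2, 1, le_rfl, Pool.Agent.Det.evPDA, Pool.Agent.Det.evPDA_det,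
        Pool.Agent.Det.evPDA_lang, fun w t cf h => ?_⟩
      have := (Pool.Agent.Det.evPDA_pos w t cf h).2
      have h3 : (t : ℝ) ≤ w.length + 2 := by exact_mod_cast this
      show (t : ℝ) ≤ 2 * ((w.length : ℝ) + 1) ^ (((1 : ℚ) : ℝ))
      rw [e1, Real.rpow_one]
      have h4 : (0 : ℝ) ≤ w.length := Nat.cast_nonneg _
      linarith
    · exact fun _ => ⟨Pool.Agent.Det.evPDA, Pool.Agent.Det.evPDA_det,
        Pool.Agent.Det.evPDA_lang, fun w t cf h => Pool.Agent.Det.evPDA_pos w t cf h⟩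
    · rw [e1]; exact low_of_avgM le_rfl (by norm_num) avgM_one
  · have h' : (1 : ℝ) < c := by exact_mod_cast h
    obtain ⟨T, C, K, g1, g2, hK, g3, g4, g5⟩ := Pool.Agent.Poly.exists_clock_rat c h1 h2
    have hCOR := t_COR t_GEO
    have hA := t_AVM t_GEO (t_AGR hCOR) t_PAR (t_SEM t_FWD) c K T h' h2' hK g4 g5
    obtain ⟨M', m1, m2, m3⟩ := t_CLK 4 3 Lm colPDA C T colPDA_det g1
    refine ⟨Lm, inferInstance, LT T, ⟨K, 4 + 3, by norm_num, M', m1, m2, fun w t cf h => ?_⟩,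
      fun h => absurd h (ne_of_gt (by assumption)), low_of_avgM h1' h2' hA⟩
    exact (Nat.cast_le.2 (m3 w t cf h)).trans (g3 _)

end Pool.Agent.TGC
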