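import Pool.Agent.TGC.St

/-!
# Probabilistic multihead automata (MP_5e85fc_lc): definitions
-/

set_option autoImplicit false

namespace Pool.Agent.TGC

open Pool.Agent.Heads Pool.Agent.Det Filter Asymptotics

/-- A two-way probabilistic finite automaton with `k` heads. In each step a random element of the
finite set `R` is used (uniformly distributed, independent of the other steps); it, the state and
the scanned symbols determine the next state and the moves of the heads (`none`: no step). -/
structure PFA (α : Type) (k : ℕ) where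
  Q : Type
  R : Type
  finQ : Finite Q
  finR : Finite R
  neR : Nonempty R
  start : Q
  accept : Set Q
  δ : R → Q → (Fin k → Sym α) → Option (Q × (Fin k → Dir))

/-- The configuration after `i ≤ t` steps on the word `w`, if the random elements of the first `t`
steps are `r 0, …, r (t - 1)`. All heads start on the left endmarker. -/
def PFA.cf {α : Type} {k : ℕ} (M : PFA α k) (w : List α) {t : ℕ} (r : Fin t → M.R) :
    ℕ → Option (M.Q × (Fin k → ℕ))
  | 0 => some (M.start, fun _ => 0)
  | i + 1 => if h : i < t then (M.cf w r i).bind fun c =>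
      (M.δ (r ⟨i, h⟩) c.1 fun a => tape w (c.2 a)).map fun qd =>
        (qd.1, fun a => move (w.length + 1) (c.2 a) (qd.2 a)) else none

/-- The automaton is in an accepting state after some `i ≤ t` steps. -/
def PFA.Acc {α : Type} {k : ℕ} (M : PFA α k) (w : List α) {t : ℕ} (r : Fin t → M.R) : Prop :=
  ∃ i ≤ t, ∃ c, M.cf w r i = some c ∧ c.1 ∈ M.accept

/-- The probability that `M` accepts `w` in at most `t` steps. -/
noncomputable def PFA.pr {α : Type} {k : ℕ} (M : PFA α k) (w : List α) (t : ℕ) : ℝ :=
  (Nat.card {r : Fin t → M.R // M.Acc w r} : ℝ) / (Nat.card M.R : ℝ) ^ t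

open scoped Classical in
/-- The probability that `M` is right about the membership of `w` in `L` in time `t`: the
probability that `M` accepts `w` in at most `t` steps if `w` is in `L`, and that it does not
accept `w` in at most `t` steps otherwise. -/
noncomputable def PFA.right {α : Type} {k : ℕ} (M : PFA α k) (L : Set (List α)) (w : List α)
    (t : ℕ) : ℝ := if w ∈ L then M.pr w t else 1 - M.pr w t

/-- The lower bound on average, for machines with time dependent steps. -/
def AvgM {α : Type} (L : Set (List α)) (c : ℝ) : Prop :=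
  ∀ k : ℕ, 1 ≤ k → ∃ δ : ℝ, 0 < δ ∧ ∀ᶠ n : ℕ in atTop,
    ∃ H : Finset (List α), H.Nonempty ∧ (∀ w ∈ H, w.length = n) ∧
      ∀ (Q : Type) [Fintype Q] (M : LM α k Q) (s t : ℕ), Fintype.card Q ≤ 2 ^ s →
        ((n : ℝ) + t) * (s + Real.log n) ≤ δ * (n : ℝ) ^ (c + (2 - c) / k) →
        ({w | w ∈ H ∧ (w ∈ L ↔ M.AccIn w t)}.ncard : ℝ) ≤
          (1 / 2 + Real.exp (-(δ * (n : ℝ) ^ (c - 1 + (2 - c) / k)))) * H.card

/-- The lower bound on average, for probabilistic automata: there is a set of words of length `n`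
on which every automaton with at most `2 ^ s` states is right with probability hardly more than
`1 / 2`, on average, if `(n + t) (s + log n)` is small. -/
def AvgP {α : Type} (L : Set (List α)) (c : ℝ) : Prop :=
  ∀ k : ℕ, 1 ≤ k → ∃ δ : ℝ, 0 < δ ∧ ∀ᶠ n : ℕ in atTop,
    ∃ H : Finset (List α), H.Nonempty ∧ (∀ w ∈ H, w.length = n) ∧
      ∀ (M : PFA α k) (s t : ℕ), Nat.card M.Q ≤ 2 ^ s →
        ((n : ℝ) + t) * (s + Real.log n) ≤ δ * (n : ℝ) ^ (c + (2 - c) / k) →
        ∑ w ∈ H, M.right L w t ≤
          (1 / 2 + Real.exp (-(δ * (n : ℝ) ^ (c - 1 + (2 - c) / k)))) * H.card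

/-- The lower bound in the worst case, for probabilistic automata with advantage
`exp (-δ n ^ (c - 1 + (2 - c) / k))`. -/
def WstP {α : Type} (L : Set (List α)) (c : ℝ) : Prop :=
  ∀ k : ℕ, 1 ≤ k → ∀ M : PFA α k, ∃ δ : ℝ, 0 < δ ∧ ∀ᶠ n : ℕ in atTop, ∀ t : ℕ,
    (∀ w : List α, w.length = n →
      1 / 2 + Real.exp (-(δ * (n : ℝ) ^ (c - 1 + (2 - c) / k))) < M.right L w t) →
    δ * (n : ℝ) ^ (c + (2 - c) / k) / Real.log n ≤ t

/-- `L` is accepted by a two-way probabilistic multihead finite automaton in time `f` with error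
at most `1 / 3`: the probability that it accepts `w` in at most `f |w|` steps is at least `2 / 3`
if `w` is in `L`, and at most `1 / 3` otherwise. -/
def PFATime (f : ℕ → ℝ) {α : Type} (L : Set (List α)) : Prop :=
  ∃ k, 1 ≤ k ∧ ∃ M : PFA α k, ∀ w : List α,
    (w ∈ L → 2 / 3 ≤ M.pr w ⌊f w.length⌋₊) ∧ (w ∉ L → M.pr w ⌊f w.length⌋₊ ≤ 1 / 3)

end Pool.Agent.TGC
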