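import Pool.Agent.TGC.PDefs
import Pool.Agent.TGC.AVE

/-!
# Probabilistic multihead automata: the lower bounds
-/

set_option autoImplicit false

namespace Pool.Agent.TGC

open Pool.Agent.Heads Pool.Agent.Det Filter Asymptotics

namespace PRB_aux

attribute [local instance] Classical.propDecidable

variable {α : Type} {k : ℕ}

/-- The machine with fixed random elements. -/
def toLM (M : PFA α k) {t : ℕ} (r : Fin t → M.R) : Pool.Agent.TGC.LM α k M.Q where
  nx := fun i q x => if h : i < t then M.δ (r ⟨i, h⟩) q x else none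
  q0 := M.start
  acc := fun q => q ∈ M.accept

lemma toLM_cf (M : PFA α k) (w : List α) {t : ℕ} (r : Fin t → M.R) (i : ℕ) :
    (toLM M r).cf w i = M.cf w r i := by
  induction i with
  | zero => rfl
  | succ i ih =>
    unfold Pool.Agent.TGC.LM.cf PFA.cf
    rw [ih]
    by_cases h : i < t
    · rw [dif_pos h]
      congr 1
      funext c
      unfold toLM
      simp only [dif_pos h]
    · rw [dif_neg h]
      cases h1 : M.cf w r i with
      | none => rfl
      | some c =>
        rw [Option.bind_some]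
        unfold toLM
        simp only [dif_neg h, Option.map_none]

lemma toLM_acc (M : PFA α k) (w : List α) {t : ℕ} (r : Fin t → M.R) :
    (toLM M r).AccIn w t ↔ M.Acc w r := by
  unfold Pool.Agent.TGC.LM.AccIn PFA.Acc
  constructor
  · rintro ⟨i, hi, c, h1, h2⟩
    exact ⟨i, hi, c, by rw [← toLM_cf]; exact h1, h2⟩
  · rintro ⟨i, hi, c, h1, h2⟩
    exact ⟨i, hi, c, by rw [toLM_cf]; exact h1, h2⟩

lemma card_pos (M : PFA α k) (t : ℕ) : (0 : ℝ) < (Nat.card M.R : ℝ) ^ t := by
  have := M.finR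
  have := M.neR
  have : 0 < Nat.card M.R := Nat.card_pos
  positivity

/-- The probability to be right as a fraction. -/
lemma right_eq (M : PFA α k) (L : Set (List α)) (w : List α) (t : ℕ) :
    M.right L w t = (Nat.card {r : Fin t → M.R // (w ∈ L ↔ M.Acc w r)} : ℝ) /
      (Nat.card M.R : ℝ) ^ t := by
  have := M.finR
  have hfin : Finite (Fin t → M.R) := inferInstance
  have hp := card_pos M t
  unfold PFA.right PFA.pr
  by_cases hw : w ∈ L
  · rw [if_pos hw]
    congr 3
    refine congrArg Subtype ?_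
    funext r
    simp [hw]
  · rw [if_neg hw, eq_div_iff hp.ne', sub_mul, one_mul, div_mul_cancel₀ _ hp.ne']
    have h1 : Nat.card {r : Fin t → M.R // (w ∈ L ↔ M.Acc w r)} =
        Nat.card {r : Fin t → M.R // ¬ M.Acc w r} := by
      refine congrArg Nat.card (congrArg Subtype ?_)
      funext r
      simp [hw]
    have h2 : Nat.card {r : Fin t → M.R // M.Acc w r} +
        Nat.card {r : Fin t → M.R // ¬ M.Acc w r} = Nat.card M.R ^ t := by
      have e := Equiv.sumCompl (fun r : Fin t → M.R => M.Acc w r)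
      rw [← Nat.card_sum, Nat.card_congr e, Nat.card_fun, Nat.card_fin]
    rw [h1]
    have h3 : ((Nat.card {r : Fin t → M.R // M.Acc w r} : ℕ) : ℝ) +
        (Nat.card {r : Fin t → M.R // ¬ M.Acc w r} : ℕ) = (Nat.card M.R : ℝ) ^ t := by
      exact_mod_cast h2
    linarith

/-- If every choice of the random elements is right on at most `B` words of `H`, then the average is
at most `B`. -/
lemma derand (M : PFA α k) (L : Set (List α)) (H : Finset (List α)) (t : ℕ) (B : ℝ)
    (h : ∀ r : Fin t → M.R, ({w | w ∈ H ∧ (w ∈ L ↔ M.Acc w r)}.ncard : ℝ) ≤ B) :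
    ∑ w ∈ H, M.right L w t ≤ B := by
  have := M.finR
  have hfr : Fintype M.R := Fintype.ofFinite M.R
  have hp := card_pos M t
  have e1 : ∀ w, M.right L w t = (∑ r : Fin t → M.R,
      (if (w ∈ L ↔ M.Acc w r) then (1 : ℝ) else 0)) / (Nat.card M.R : ℝ) ^ t := by
    intro w
    rw [right_eq, Finset.sum_boole, Nat.card_eq_fintype_card, Fintype.card_subtype]
  rw [Finset.sum_congr rfl fun w _ => e1 w, ← Finset.sum_div, Finset.sum_comm,
    div_le_iff₀ hp]
  have e2 : ∀ r : Fin t → M.R, ∑ w ∈ H, (if (w ∈ L ↔ M.Acc w r) then (1 : ℝ) else 0) ≤ B := by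
    intro r
    refine le_trans (le_of_eq ?_) (h r)
    rw [Finset.sum_boole]
    congr 1
    rw [← Set.ncard_coe_finset]
    congr 1
    ext w
    simp
  refine (Finset.sum_le_sum fun r _ => e2 r).trans ?_
  rw [Finset.sum_const, Finset.card_univ, nsmul_eq_mul]
  have e3 : ((Fintype.card (Fin t → M.R) : ℕ) : ℝ) = (Nat.card M.R : ℝ) ^ t := by
    rw [Fintype.card_fun, Fintype.card_fin, Nat.card_eq_fintype_card]
    push_cast
    rfl
  rw [e3, mul_comm]

end PRB_aux

open PRB_aux

/-- From machines with time dependent steps to probabilistic automata. -/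
theorem avgP_of_avgM {α : Type} {L : Set (List α)} {c : ℝ} (h : AvgM L c) : AvgP L c := by
  intro k hk
  obtain ⟨δ, hδ, h⟩ := h k hk
  refine ⟨δ, hδ, ?_⟩
  filter_upwards [h] with n hn
  obtain ⟨H, hne, hlen, hH⟩ := hn
  refine ⟨H, hne, hlen, ?_⟩
  intro M s t hQ hst
  have := M.finQ
  have hfin : Fintype M.Q := Fintype.ofFinite M.Q
  refine derand M L H t _ fun r => ?_
  have h1 := hH M.Q (toLM M r) s t (by rw [← Nat.card_eq_fintype_card]; exact hQ) hst
  have e1 : {w | w ∈ H ∧ (w ∈ L ↔ M.Acc w r)} =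
      {w | w ∈ H ∧ (w ∈ L ↔ (toLM M r).AccIn w t)} := by
    ext w
    show _ ∧ _ ↔ _ ∧ _
    rw [toLM_acc]
  rw [e1]
  exact h1

/-- From machines with time dependent steps to deterministic automata. -/
theorem avg_of_avgM {α : Type} {L : Set (List α)} {c : ℝ} (h : AvgM L c) : Avg L c := by
  intro k hk
  obtain ⟨δ, hδ, h⟩ := h k hk
  refine ⟨δ, hδ, ?_⟩
  filter_upwards [h] with n hn
  obtain ⟨H, hne, hlen, hH⟩ := hn
  refine ⟨H, hne, hlen, ?_⟩
  intro M s t hM hQ hst
  have := M.finQ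
  have hfin : Fintype M.Q := Fintype.ofFinite M.Q
  have h1 := hH M.Q (AVE_aux.ofFA M) s t (by rw [← Nat.card_eq_fintype_card]; exact hQ) hst
  have e1 : {w | w ∈ H ∧ (w ∈ L ↔ AcceptsIn M w t)} =
      {w | w ∈ H ∧ (w ∈ L ↔ (AVE_aux.ofFA M).AccIn w t)} := by
    ext w
    show _ ∧ _ ↔ _ ∧ _
    rw [AVE_aux.ofFA_accIn hM]
  rw [e1]
  exact h1

/-- The lower bound on average for machines with time dependent steps. -/
theorem t_AVM (hG : s_GEO) (hA : s_AGR) (hP : s_PAR) (hS : s_SEM) :
    ∀ (c K : ℝ) (T : ℕ → ℕ), 1 < c → c < 2 → 0 < K →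
      (∀ n : ℕ, 0 < n → (T n : ℝ) ≤ K * (n : ℝ) ^ c) → (∀ n : ℕ, (n : ℝ) ^ c ≤ K * T n) →
      AvgM (LT T) c := by
  classical
  intro c K T hc1 hc2 hK hT1 hT2 k hk
  obtain ⟨δ, hδ, h⟩ := hP c K T hc1 hc2 hK hT1 hT2 k hk
  refine ⟨δ, hδ, ?_⟩
  filter_upwards [h] with n hn
  obtain ⟨b, m', hb, hm, hmn, hbT, hexp, hpar⟩ := hn
  have : NeZero b := ⟨by omega⟩
  have hmn' : b * (5 * (64 * m')) ^ k ≤ n := by
    rw [show 5 * (64 * m') = 320 * m' by ring]; exact hmn
  obtain ⟨-, -, -, -, -, hlen, hinj'⟩ := hG b (64 * m') k (by omega)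
  have hinj : Function.Injective (wd b (64 * m') k n) := hinj' n hmn'
  refine ⟨Finset.univ.image (wd b (64 * m') k n), ?_, ?_, ?_⟩
  · refine Finset.Nonempty.image ?_ _
    have := AVE_aux.ne_Wt (64 * m') k (Fin b)
    exact Finset.univ_nonempty
  · intro w hw
    rw [Finset.mem_image] at hw
    obtain ⟨W, -, rfl⟩ := hw
    exact hlen n W
  · intro Q _ M s t hcard hst
    obtain ⟨L, hL1, hL2⟩ := hpar s t hst
    have hmem : ∀ W : Wt (64 * m') k (Fin b), wd b (64 * m') k n W ∈ LT T ↔
        chi (64 * m') k (Fin b) Finset.univ W = -1 := by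
      intro W
      have h1 := hS b (64 * m') k n (T n) W (by omega) (by omega) hmn' hbT
      rw [← h1]
      unfold LT
      rw [Set.mem_ofPred_eq, hlen n W]
    have hb := hA k Q b (64 * m') m' n t L M (LT T) rfl (by omega) hmem
      (hL1 _ hcard) hL2
    have e1 : {w | w ∈ Finset.univ.image (wd b (64 * m') k n) ∧ (w ∈ LT T ↔ M.AccIn w t)} =
        wd b (64 * m') k n '' {W : Wt (64 * m') k (Fin b) | wd b (64 * m') k n W ∈ LT T ↔
          M.AccIn (wd b (64 * m') k n W) t} := by
      ext w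
      constructor
      · rintro ⟨hw, h1⟩
        rw [Finset.mem_image] at hw
        obtain ⟨W, -, rfl⟩ := hw
        exact ⟨W, h1, rfl⟩
      · rintro ⟨W, h1, rfl⟩
        exact ⟨Finset.mem_image_of_mem _ (Finset.mem_univ _), h1⟩
    rw [e1, Set.ncard_image_of_injective _ hinj, Finset.card_image_of_injective _ hinj,
      Finset.card_univ]
    refine hb.trans ?_
    refine mul_le_mul_of_nonneg_right ?_ (Nat.cast_nonneg _)
    linarith

end Pool.Agent.TGC
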